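import Pool.Agent.Helper99_qis.Big

set_option autoImplicit false

/-! The group `H` acts on the tree of `G`. -/

namespace Pool.Agent.Helper99

open Pool.Agent.H895R2.SB

namespace Ctx

variable {G H V : Type} [Group G] [Group H] [MulAction G V] (C : Ctx G H V)

/-- `h` sends the piece `v` into a neighbourhood of the piece `w` -/
def Rel (s : ℕ) (h : H) (v w : V) : Prop := ∀ y ∈ C.Y v, h * y ∈ C.N s (C.Y w)

theorem rel_one (v : V) : C.Rel 0 1 v v := by
  intro y hy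
  rw [one_mul]
  exact C.N_self hy

theorem rel_comp {s s' : ℕ} {h h' : H} {v w u : V} (h1 : C.Rel s h v w) (h2 : C.Rel s' h' w u) :
    C.Rel (s + s') (h' * h) v u := by
  intro y hy
  obtain ⟨z, hz, hz'⟩ := h1 y hy
  rw [mul_assoc]
  exact C.N_trans (h2 z hz) (by rw [C.hH.left]; exact hz')

theorem rel_mono {s s' : ℕ} (hs : s ≤ s') {h : H} {v w : V} (h1 : C.Rel s h v w) :
    C.Rel s' h v w := fun y hy => C.N_mono hs _ (h1 y hy)

theorem exists_rep_big : ∃ k0 ∈ C.K0, k0 ∈ C.B := by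
  obtain ⟨l, hl⟩ := C.R.exists_line
  obtain ⟨u, v, _, hu, _⟩ := C.R.nbr_two l hl
  have hu' : u ∈ C.B := by
    by_contra h
    exact hl ((C.R.bip l u hu).2 h)
  obtain ⟨g, k, hk, rfl⟩ := C.hK0 u
  refine ⟨k, hk, ?_⟩
  have := C.R.smul_mem g⁻¹ _ hu'
  rwa [inv_smul_smul] at this

theorem nbr_big {l v : V} (hl : l ∉ C.B) (h : C.T.Adj l v) : v ∈ C.B := by
  by_contra h'
  exact hl ((C.R.bip l v h).2 h')

theorem nbr_line {l v : V} (hv : v ∈ C.B) (h : C.T.Adj v l) : l ∉ C.B :=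
  (C.R.bip v l h).1 hv

theorem not_big_of_smul {g : G} {v : V} (h : v ∉ C.B) : g • v ∉ C.B := by
  intro h'
  have := C.R.smul_mem g⁻¹ _ h'
  rw [inv_smul_smul] at this
  exact h this

/-- uniqueness of the image of a big vertex -/
theorem uniq_big {s s' : ℕ} {h : H} {v w w' : V} (hv : v ∈ C.B) (hw : w ∈ C.B)
    (h1 : C.Rel s h v w) (h2 : C.Rel s' h v w') : w = w' := by
  by_contra hne
  obtain ⟨l, hwl, hl⟩ := toward C.R.tree hne
  have hlB := C.nbr_line hw hwl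
  have hsep : Sep C.T l w w' := by
    unfold Sep
    have := SimpleGraph.dist_eq_one_iff_adj.2 hwl
    omega
  obtain ⟨κ, hκ⟩ := C.cross (s + s')
  obtain ⟨y, hy, hy'⟩ := C.not_line (s + κ) h v l hv hlB
  apply hy'
  obtain ⟨z, hz, hz1⟩ := h1 y hy
  obtain ⟨z', hz', hz1'⟩ := h2 y hy
  have hzz : C.lH (z⁻¹ * z') ≤ s + s' := by
    have a1 := C.hH.tri z (h * y) z'
    have a2 := C.hH.comm z (h * y)
    omega
  exact C.N_trans (hκ z z' w w' l hz hz' hzz hsep) hz1

/-- existence of the image of a big vertex, with a uniform constant -/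
theorem exists_big : ∃ s : ℕ, ∀ (h : H) (v : V), v ∈ C.B → ∃ w ∈ C.B, C.Rel s h v w := by
  classical
  obtain ⟨k0, hk0, hk0B⟩ := C.exists_rep_big
  obtain ⟨s1, hs1⟩ := C.one_side hk0 hk0B
  obtain ⟨κ, hκ⟩ := C.nbr_near
  refine ⟨s1 + κ, ?_⟩
  intro h v hv
  have hT := C.R.tree
  obtain ⟨y0, hy0⟩ := C.Y_nonempty v
  obtain ⟨u0, hu0⟩ : ∃ u0, u0 = C.pos k0 (h * y0) := ⟨_, rfl⟩
  have hu0B : u0 ∈ C.B := by rw [hu0]; exact C.pos_big hk0B _
  let Pt : V → V → Prop := fun l w => ∃ y ∈ C.Y v, h * y ∉ C.N s1 (C.Y l) ∧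
    ¬ Sep C.T l (C.pos k0 (h * y)) w
  let W : Set V := {w | w ∈ C.B ∧ (w = u0 ∨ ∃ l, C.T.Adj l w ∧ C.T.dist u0 l + 1 = C.T.dist u0 w ∧
    Pt l w)}
  -- points of W are at bounded distance
  have hbd : ∃ M : ℕ, ∀ w ∈ W, C.T.dist u0 w ≤ M := by
    obtain ⟨M, hM⟩ := finite_bound (C.fin_near (h * y0) s1) (fun l => C.T.dist u0 l)
    refine ⟨M + 1, ?_⟩
    rintro w ⟨hwB, rfl | ⟨l, hlw, hd, y, hy, hy1, hy2⟩⟩
    · rw [SimpleGraph.dist_self]; omega
    · have hlB : l ∉ C.B := fun hc => (C.R.bip l w hlw).1 hc hwB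
      have hnear : h * y0 ∈ C.N s1 (C.Y l) := by
        by_contra hc
        have := hs1 h v l hv hlB y0 hy0 y hy hc hy1
        rw [← hu0] at this
        have hsep : Sep C.T l u0 w := by
          unfold Sep
          have := SimpleGraph.dist_eq_one_iff_adj.2 hlw
          omega
        rcases hsep.or hT (C.pos k0 (h * y)) with h1 | h1
        · exact this h1
        · exact hy2 h1
      have := hM l hnear
      omega
  -- a farthest point of W
  obtain ⟨w, hwW, hwmax⟩ : ∃ w ∈ W, ∀ w' ∈ W, C.T.dist u0 w' ≤ C.T.dist u0 w := by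
    obtain ⟨M, hM⟩ := hbd
    have hne : ∃ n, ∃ w ∈ W, C.T.dist u0 w = n := ⟨_, u0, ⟨hu0B, Or.inl rfl⟩, rfl⟩
    have hmax := Nat.findGreatest_spec (P := fun n => ∃ w ∈ W, C.T.dist u0 w = n) (n := M)
      (m := C.T.dist u0 u0) (hM u0 ⟨hu0B, Or.inl rfl⟩) ⟨u0, ⟨hu0B, Or.inl rfl⟩, rfl⟩
    obtain ⟨w, hw, hw'⟩ := hmax
    refine ⟨w, hw, ?_⟩
    intro w' hw''
    rw [hw']
    exact Nat.le_findGreatest (hM w' hw'') ⟨w', hw'', rfl⟩
  refine ⟨w, hwW.1, ?_⟩
  intro y hy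
  by_cases hp : C.pos k0 (h * y) = w
  · apply C.N_self
    rw [← hp]
    exact C.pos_mem hk0 _
  obtain ⟨l, hwl, hl⟩ := toward hT (Ne.symm hp)
  have hlB := C.nbr_line hwW.1 hwl
  have hsep : Sep C.T l w (C.pos k0 (h * y)) := by
    unfold Sep
    have := SimpleGraph.dist_eq_one_iff_adj.2 hwl
    omega
  have key : h * y ∈ C.N s1 (C.Y l) := by
    by_contra hc
    rcases adj_dist hT u0 hwl with hd | hd
    · -- l is the parent of w
      rcases hwW.2 with hw0 | ⟨l', hl'w, hd', y1, hy1, hy2, hy3⟩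
      · rw [← hw0, SimpleGraph.dist_self] at hd
        omega
      · have hll : l = l' := unique_par hT (x := u0) hwl hl'w.symm (by omega) hd'
        subst hll
        have h1 := hs1 h v l hv hlB y hy y1 hy1 hc hy2
        rcases hsep.symm.or hT (C.pos k0 (h * y1)) with h2 | h2
        · exact h1 h2
        · exact hy3 h2
    · -- l is a child of w
      have hpl : l ≠ C.pos k0 (h * y) := fun he => hlB (he ▸ C.pos_big hk0B _)
      obtain ⟨w', hlw', hw'⟩ := toward hT hpl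
      have hww' : w' ≠ w := by
        rintro rfl
        omega
      have hw'B := C.nbr_big hlB hlw'
      have hdw' : C.T.dist u0 w' = C.T.dist u0 l + 1 := by
        rcases adj_dist hT u0 hlw' with h5 | h5
        · exfalso
          exact hww' (unique_par hT (x := u0) hlw' hwl.symm h5.symm (by omega))
        · exact h5
      have hW' : w' ∈ W := by
        refine ⟨hw'B, Or.inr ⟨l, hlw', by omega, y, hy, hc, ?_⟩⟩
        intro hs
        unfold Sep at hs
        have e1 := dcomm (T := C.T) (C.pos k0 (h * y)) l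
        have e2 := dcomm (T := C.T) (C.pos k0 (h * y)) w'
        have e3 := SimpleGraph.dist_eq_one_iff_adj.2 hlw'
        omega
      have := hwmax w' hW'
      omega
  obtain ⟨z, hz, hz'⟩ := key
  have := hκ l w hlB hwl.symm hz
  exact C.N_trans this hz'

/-- injectivity -/
theorem inj_big {s s' : ℕ} {h : H} {v v' w : V} (hv : v ∈ C.B) (hv' : v' ∈ C.B) (hw : w ∈ C.B)
    (h1 : C.Rel s h v w) (h2 : C.Rel s' h v' w) : v = v' := by
  obtain ⟨s2, hs2⟩ := C.exists_big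
  obtain ⟨u, hu, hu'⟩ := hs2 h⁻¹ w hw
  have a1 := C.rel_comp h1 hu'
  have a2 := C.rel_comp h2 hu'
  rw [inv_mul_cancel] at a1 a2
  exact (C.uniq_big hv hv (C.rel_one v) a1).trans (C.uniq_big hv' hv' (C.rel_one v') a2).symm

/-- an unbounded coarse intersection comes from an infinite intersection of stabilisers -/
theorem inf_meet {s s' : ℕ} {a b : V} (h : {z : H | z ∈ C.N s (C.Y a) ∧ z ∈ C.N s' (C.Y b)}.Infinite) :
    {g : G | g • a = a ∧ g • b = b}.Infinite := by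
  classical
  intro hfin
  apply h
  -- the map to G is finite-to-one, and its image is finite
  have hball := C.hG.fin (C.K * s + C.K + C.K)
  have hball' := C.hG.fin (C.K * s' + C.K + C.K)
  let A : Set H := {z : H | z ∈ C.N s (C.Y a) ∧ z ∈ C.N s' (C.Y b)}
  -- labels
  have hlab : ∀ z ∈ A, ∃ u u' : G, C.lG u ≤ C.K * s + C.K + C.K ∧ C.lG u' ≤ C.K * s' + C.K + C.K ∧
      (C.f z * u)⁻¹ • a ∈ C.K0 ∧ (C.f z * u')⁻¹ • b ∈ C.K0 := by
    rintro z ⟨⟨y, ⟨g, hg1, hg2⟩, hy⟩, ⟨y', ⟨g', hg1', hg2'⟩, hy'⟩⟩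
    refine ⟨(C.f z)⁻¹ * g, (C.f z)⁻¹ * g', ?_, ?_, ?_, ?_⟩
    · have a1 := C.hG.tri (C.f z) (C.f y) g
      have a2 := C.hf1 z y
      have a3 := Nat.mul_le_mul_left C.K hy
      omega
    · have a1 := C.hG.tri (C.f z) (C.f y') g'
      have a2 := C.hf1 z y'
      have a3 := Nat.mul_le_mul_left C.K hy'
      omega
    · rwa [mul_inv_cancel_left]
    · rwa [mul_inv_cancel_left]
  -- for each label the set of the elements `f z` is finite
  have hfz : (C.f '' A).Finite := by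
    have hsub : C.f '' A ⊆ ⋃ u ∈ {x : G | C.lG x ≤ C.K * s + C.K + C.K},
        ⋃ u' ∈ {x : G | C.lG x ≤ C.K * s' + C.K + C.K}, ⋃ k ∈ (C.K0 : Set V), ⋃ k' ∈ (C.K0 : Set V),
        {g : G | (g * u)⁻¹ • a = k ∧ (g * u')⁻¹ • b = k'} := by
      rintro _ ⟨z, hz, rfl⟩
      obtain ⟨u, u', h1, h2, h3, h4⟩ := hlab z hz
      simp only [Set.mem_iUnion]
      exact ⟨u, h1, u', h2, _, h3, _, h4, rfl, rfl⟩
    apply Set.Finite.subset _ hsub
    apply Set.Finite.biUnion hball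
    intro u _
    apply Set.Finite.biUnion hball'
    intro u' _
    apply Set.Finite.biUnion C.K0.finite_toSet
    intro k _
    apply Set.Finite.biUnion C.K0.finite_toSet
    intro k' _
    by_cases hne : ∃ g1 : G, (g1 * u)⁻¹ • a = k ∧ (g1 * u')⁻¹ • b = k'
    · obtain ⟨g1, e1, e2⟩ := hne
      apply Set.Finite.subset (hfin.image (fun γ => γ * g1))
      rintro g ⟨e3, e4⟩
      refine ⟨g * g1⁻¹, ⟨?_, ?_⟩, by group⟩
      · have h5 : (g1 * u)⁻¹ • a = (g * u)⁻¹ • a := e1.trans e3.symm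
        have h6 : a = (g1 * u) • (g * u)⁻¹ • a := by rw [← h5, smul_inv_smul]
        have h7 : (g * g1⁻¹) • a = (g * g1⁻¹) • (g1 * u) • (g * u)⁻¹ • a := by rw [← h6]
        rw [h7, smul_smul, smul_smul]
        have : g * g1⁻¹ * (g1 * u) * (g * u)⁻¹ = 1 := by group
        rw [this, one_smul]
      · have h5 : (g1 * u')⁻¹ • b = (g * u')⁻¹ • b := e2.trans e4.symm
        have h6 : b = (g1 * u') • (g * u')⁻¹ • b := by rw [← h5, smul_inv_smul]
        have h7 : (g * g1⁻¹) • b = (g * g1⁻¹) • (g1 * u') • (g * u')⁻¹ • b := by rw [← h6]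
        rw [h7, smul_smul, smul_smul]
        have : g * g1⁻¹ * (g1 * u') * (g * u')⁻¹ = 1 := by group
        rw [this, one_smul]
    · have : {g : G | (g * u)⁻¹ • a = k ∧ (g * u')⁻¹ • b = k'} = ∅ := by
        ext g
        simp only [Set.mem_ofPred_eq, Set.mem_empty_iff_false, iff_false]
        exact fun hg => hne ⟨g, hg⟩
      rw [this]
      exact Set.finite_empty
  -- f is finite-to-one
  have hA : A ⊆ ⋃ g ∈ C.f '' A, {z : H | C.f z = g} := by
    intro z hz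
    simp only [Set.mem_iUnion]
    exact ⟨C.f z, ⟨z, hz, rfl⟩, rfl⟩
  apply Set.Finite.subset _ hA
  apply Set.Finite.biUnion hfz
  rintro g _
  by_cases hne : ∃ z1, C.f z1 = g
  · obtain ⟨z1, rfl⟩ := hne
    apply Set.Finite.subset ((C.hH.fin C.K).image (fun t => z1 * t))
    intro z hz
    refine ⟨z1⁻¹ * z, ?_, by group⟩
    have := C.hf2 z1 z
    have e : C.f z = C.f z1 := hz
    rw [e, C.hG.self] at this
    simpa using this
  · have : {z : H | C.f z = g} = ∅ := by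
      ext z
      simp only [Set.mem_ofPred_eq, Set.mem_empty_iff_false, iff_false]
      exact fun hz => hne ⟨z, hz⟩
    rw [this]
    exact Set.finite_empty

/-- lines are infinite -/
theorem Y_infinite (l : V) (hl : l ∉ C.B) : (C.Y l).Infinite := by
  intro hfin
  obtain ⟨ρ, _, hρ⟩ := C.coord 0
  obtain ⟨q, _, h2⟩ := hρ l hl
  obtain ⟨M, hM⟩ := finite_bound hfin (fun y => (q y).natAbs)
  obtain ⟨y, hy, hy'⟩ := h2 (M + ρ 0 + 1)
  have h3 : (q y).natAbs ≤ M := hM y hy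
  omega

/-- uniqueness of the image of a line vertex -/
theorem uniq_line {s s' : ℕ} {h : H} {l w w' : V} (hl : l ∉ C.B) (hw : w ∉ C.B) (hw' : w' ∉ C.B)
    (h1 : C.Rel s h l w) (h2 : C.Rel s' h l w') : w = w' := by
  by_contra hne
  have hinf : {z : H | z ∈ C.N s (C.Y w) ∧ z ∈ C.N s' (C.Y w')}.Infinite := by
    apply Set.Infinite.mono _ ((C.Y_infinite l hl).image (f := fun y => h * y)
      (mul_right_injective h).injOn)
    rintro _ ⟨y, hy, rfl⟩
    exact ⟨h1 y hy, h2 y hy⟩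
  exact C.inf_meet hinf (C.R.line_meet w hw w' hw' hne)

/-- images of lines: `l` is adjacent to `v`, and `v` goes to `w` -/
theorem exists_line_aux : ∃ s : ℕ, ∀ (h : H) (l v : V), l ∉ C.B → C.T.Adj l v → ∀ w ∈ C.B,
    ∀ s2 : ℕ, C.Rel s2 h v w → ∃ l', C.T.Adj w l' ∧ C.Rel s h l l' := by
  obtain ⟨s2, hs2⟩ := C.exists_big
  obtain ⟨κ, hκ⟩ := C.nbr_near
  obtain ⟨κ', hκ'⟩ := C.cross ((κ + s2) + (κ + s2))
  refine ⟨(κ + s2) + κ', ?_⟩
  intro h l v hl hlv w hw s0 hrel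
  have hvB := C.nbr_big hl hlv
  obtain ⟨v2, hv2, hlv2⟩ : ∃ v2, v2 ≠ v ∧ C.T.Adj l v2 := by
    obtain ⟨u, u', huu, hu, hu'⟩ := C.R.nbr_two l hl
    by_cases h1 : u = v
    · exact ⟨u', fun h2 => huu (h1.trans h2.symm), hu'⟩
    · exact ⟨u, h1, hu⟩
  have hv2B := C.nbr_big hl hlv2
  obtain ⟨w0, hw0, hr0⟩ := hs2 h v hvB
  have : w = w0 := C.uniq_big hvB hw hrel hr0
  subst this
  obtain ⟨w2, hw2, hr2⟩ := hs2 h v2 hv2B
  have hne : w ≠ w2 := by
    rintro rfl
    exact hv2 (C.inj_big hv2B hvB hw hr2 hr0)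
  have hpt : ∀ (v w : V), C.T.Adj l v → C.Rel s2 h v w → ∀ y ∈ C.Y l,
      h * y ∈ C.N (κ + s2) (C.Y w) := by
    intro v w hlv hr y hy
    obtain ⟨z, hz, hz'⟩ := hκ l v hl hlv hy
    exact C.N_trans (hr z hz) (by rw [C.hH.left]; exact hz')
  obtain ⟨l', hwl', hl'⟩ := toward C.R.tree hne
  refine ⟨l', hwl', ?_⟩
  intro y hy
  obtain ⟨z, hz, hz'⟩ := hpt v w hlv hr0 y hy
  obtain ⟨z2, hz2, hz2'⟩ := hpt v2 w2 hlv2 hr2 y hy
  have hsep : Sep C.T l' w w2 := by
    unfold Sep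
    have := SimpleGraph.dist_eq_one_iff_adj.2 hwl'
    omega
  have hzz : C.lH (z⁻¹ * z2) ≤ (κ + s2) + (κ + s2) := by
    have a1 := C.hH.tri z (h * y) z2
    have a2 := C.hH.comm z (h * y)
    omega
  exact C.N_trans (hκ' z z2 w w2 l' hz hz2 hzz hsep) hz'

/-- every vertex has an image, with a uniform constant -/
theorem exists_rel : ∃ s : ℕ, ∀ (h : H) (v : V), ∃ w, (w ∈ C.B ↔ v ∈ C.B) ∧ C.Rel s h v w := by
  obtain ⟨s2, hs2⟩ := C.exists_big
  obtain ⟨s3, hs3⟩ := C.exists_line_aux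
  refine ⟨max s2 s3, ?_⟩
  intro h v
  by_cases hv : v ∈ C.B
  · obtain ⟨w, hw, hr⟩ := hs2 h v hv
    exact ⟨w, by simp [hw, hv], C.rel_mono (le_max_left _ _) hr⟩
  · obtain ⟨u, _, _, hu, _⟩ := C.R.nbr_two v hv
    obtain ⟨w, hw, hr⟩ := hs2 h u (C.nbr_big hv hu)
    obtain ⟨l', hl', hr'⟩ := hs3 h v u hv hu w hw s2 hr
    have := C.nbr_line hw hl'
    exact ⟨l', by simp [this, hv], C.rel_mono (le_max_right _ _) hr'⟩

theorem uniq_rel {s s' : ℕ} {h : H} {v w w' : V} (hw : w ∈ C.B ↔ v ∈ C.B) (hw' : w' ∈ C.B ↔ v ∈ C.B)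
    (h1 : C.Rel s h v w) (h2 : C.Rel s' h v w') : w = w' := by
  by_cases hv : v ∈ C.B
  · exact C.uniq_big hv (hw.2 hv) h1 h2
  · exact C.uniq_line hv (fun h => hv (hw.1 h)) (fun h => hv (hw'.1 h)) h1 h2

/-- the constant of the action -/
noncomputable def sc : ℕ := Classical.choose C.exists_rel

/-- the action -/
noncomputable def act (h : H) (v : V) : V := Classical.choose (Classical.choose_spec C.exists_rel h v)

theorem act_spec (h : H) (v : V) : (C.act h v ∈ C.B ↔ v ∈ C.B) ∧ C.Rel C.sc h v (C.act h v) :=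
  Classical.choose_spec (Classical.choose_spec C.exists_rel h v)

theorem act_eq {s : ℕ} {h : H} {v w : V} (hw : w ∈ C.B ↔ v ∈ C.B) (h1 : C.Rel s h v w) :
    C.act h v = w :=
  C.uniq_rel (C.act_spec h v).1 hw (C.act_spec h v).2 h1

theorem act_one (v : V) : C.act 1 v = v := C.act_eq Iff.rfl (C.rel_one v)

theorem act_mul (h h' : H) (v : V) : C.act (h * h') v = C.act h (C.act h' v) := by
  apply C.act_eq
  · rw [(C.act_spec h _).1, (C.act_spec h' v).1]
  · exact C.rel_comp (C.act_spec h' v).2 (C.act_spec h _).2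

theorem act_adj (h : H) {u v : V} (huv : C.T.Adj u v) : C.T.Adj (C.act h u) (C.act h v) := by
  obtain ⟨s3, hs3⟩ := C.exists_line_aux
  have key : ∀ l v : V, l ∉ C.B → C.T.Adj l v → C.T.Adj (C.act h v) (C.act h l) := by
    intro l v hl hlv
    have hv := C.nbr_big hl hlv
    have hw : C.act h v ∈ C.B := (C.act_spec h v).1.2 hv
    obtain ⟨l', hl', hr'⟩ := hs3 h l v hl hlv _ hw _ (C.act_spec h v).2
    have hl'B := C.nbr_line hw hl'
    rw [C.act_eq (by simp [hl, hl'B]) hr']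
    exact hl'
  by_cases hu : u ∈ C.B
  · exact key v u (C.nbr_line hu huv) huv.symm
  · exact (key u v hu huv).symm

/-- the action of `H` on the tree -/
@[reducible] noncomputable def mulAct : MulAction H V where
  smul h v := C.act h v
  one_smul v := C.act_one v
  mul_smul h h' v := C.act_mul h h' v

end Ctx

end Pool.Agent.Helper99
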