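import Pool.Agent.Helper99_qis.Line

set_option autoImplicit false

/-! Big vertices are not separated by lines. -/

namespace Pool.Agent.Helper99

open Pool.Agent.H895R2.SB

namespace Ctx

variable {G H V : Type} [Group G] [Group H] [MulAction G V] (C : Ctx G H V)

/-- the points of the stabiliser of `k` which are sent near the line `l` -/
def LL (k : V) (r1 : ℕ) (h : H) (g0 : G) (l : V) : Set ↥(MulAction.stabilizer G k) :=
  {a | h * C.sg (g0 * (a : G)) ∈ C.N r1 (C.Y l)}

theorem sg_dist (g g' : G) : C.lH ((C.sg g)⁻¹ * C.sg g') ≤ C.K * (C.lG (g⁻¹ * g') + 2 * C.K) + C.K := by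
  refine (C.hf2 _ _).trans ?_
  have a1 := C.hG.tri (C.f (C.sg g)) g (C.f (C.sg g'))
  have a2 := C.hG.tri g g' (C.f (C.sg g'))
  have a3 := C.hsg g
  have a4 := C.hsg g'
  have a5 := C.hG.comm (C.f (C.sg g)) g
  have : C.lG ((C.f (C.sg g))⁻¹ * C.f (C.sg g')) ≤ C.lG (g⁻¹ * g') + 2 * C.K := by omega
  have := Nat.mul_le_mul_left C.K this
  omega

theorem sg_dist' (g g' : G) : C.lG (g⁻¹ * g') ≤ 2 * C.K + (C.K * C.lH ((C.sg g)⁻¹ * C.sg g') + C.K) := by
  have a1 := C.hG.tri g (C.f (C.sg g)) g'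
  have a2 := C.hG.tri (C.f (C.sg g)) (C.f (C.sg g')) g'
  have a3 := C.hsg g
  have a4 := C.hsg g'
  have a5 := C.hG.comm (C.f (C.sg g')) g'
  have a6 := C.hf1 (C.sg g) (C.sg g')
  omega

theorem LL_coarse (k : V) (S : Finset ↥(MulAction.stabilizer G k))
    (hS : Subgroup.closure (S : Set ↥(MulAction.stabilizer G k)) = ⊤) (r1 : ℕ) :
    ∃ ρ : ℕ → ℕ, ∀ (h : H) (g0 : G) (l : V), l ∉ C.B → IsCoarseLine S ρ (C.LL k r1 h g0 l) := by
  have hL := isLen_wlen S hS
  have hA : ∀ n : ℕ, ∃ m, ∀ a : ↥(MulAction.stabilizer G k), wlen S a ≤ n → C.lG (a : G) ≤ m := by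
    intro n
    obtain ⟨m, hm⟩ := finite_bound (hL.fin n) (fun a => C.lG (a : G))
    exact ⟨m, fun a ha => hm a ha⟩
  have hA' : ∀ n : ℕ, ∃ m, ∀ a : ↥(MulAction.stabilizer G k), C.lG (a : G) ≤ n → wlen S a ≤ m := by
    intro n
    have : {a : ↥(MulAction.stabilizer G k) | C.lG (a : G) ≤ n}.Finite := by
      apply Set.Finite.of_finite_image _ (Subtype.val_injective.injOn)
      apply (C.hG.fin n).subset
      rintro _ ⟨m, hm, rfl⟩
      exact hm
    obtain ⟨m, hm⟩ := finite_bound this (wlen S)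
    exact ⟨m, fun a ha => hm a ha⟩
  choose A hA using hA
  choose A' hA' using hA'
  obtain ⟨ρ, hρm, hρ⟩ := C.coord r1
  refine ⟨fun n => max (ρ (C.K * (A n + 2 * C.K) + C.K)) (A' (2 * C.K + (C.K * ρ n + C.K))), ?_⟩
  intro h g0 l hl
  obtain ⟨q, hq, _⟩ := hρ l hl
  refine ⟨fun a => q (h * C.sg (g0 * (a : G))), ?_⟩
  intro a ha b hb
  obtain ⟨k1, k2⟩ := hq _ ha _ hb
  have e : (h * C.sg (g0 * (a : G)))⁻¹ * (h * C.sg (g0 * (b : G))) =
      (C.sg (g0 * (a : G)))⁻¹ * C.sg (g0 * (b : G)) := by group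
  rw [e] at k1 k2
  have e2 : (g0 * (a : G))⁻¹ * (g0 * (b : G)) = ((a⁻¹ * b : ↥(MulAction.stabilizer G k)) : G) := by
    push_cast; group
  constructor
  · refine le_trans (k1.trans (hρm ?_)) (le_max_left _ _)
    refine (C.sg_dist _ _).trans ?_
    rw [e2]
    have := hA (wlen S (a⁻¹ * b)) (a⁻¹ * b) le_rfl
    have := Nat.mul_le_mul_left C.K (Nat.add_le_add_right this (2 * C.K))
    omega
  · refine le_trans ?_ (le_max_right _ _)
    apply hA'
    rw [← e2]
    refine (C.sg_dist' _ _).trans ?_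
    have := Nat.mul_le_mul_left C.K k2
    beta_reduce
    omega

/-- no translate of a big piece is near a line -/
theorem not_line (s : ℕ) (h : H) (v l : V) (hv : v ∈ C.B) (hl : l ∉ C.B) :
    ∃ y ∈ C.Y v, h * y ∉ C.N s (C.Y l) := by
  obtain ⟨g0, k, hk, rfl⟩ := C.hK0 v
  have hkB : k ∈ C.B := by
    have := C.R.smul_mem g0⁻¹ _ hv
    rwa [inv_smul_smul] at this
  obtain ⟨S, hS, hrig⟩ := C.R.rigid k hkB
  obtain ⟨ρ, hρ⟩ := C.LL_coarse k S hS s
  obtain ⟨s', hs'⟩ := hrig ρ 0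
  obtain ⟨⟨a, ha⟩, _⟩ := hs' _ (hρ h g0 l hl)
  refine ⟨C.sg (g0 * (a : G)), ?_, ?_⟩
  · apply C.sg_mem
    have e : (g0 * (a : G))⁻¹ • g0 • k = k := by
      rw [mul_inv_rev, mul_smul, inv_smul_smul]
      exact inv_smul_eq_iff.2 a.2.symm
    rw [e]
    exact hk
  · intro hc
    apply ha
    refine ⟨a, hc, ?_⟩
    rw [inv_mul_cancel, (isLen_wlen S hS).one]
    omega

variable {C} in
/-- the vertex of a point -/
def pos (C : Ctx G H V) (k0 : V) (y : H) : V := C.f y • k0

theorem pos_mem {k0 : V} (hk0 : k0 ∈ C.K0) (y : H) : y ∈ C.Y (C.pos k0 y) :=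
  ⟨C.f y, by unfold pos; rwa [inv_smul_smul], by rw [C.hG.self]; omega⟩

theorem pos_big {k0 : V} (hk0 : k0 ∈ C.B) (y : H) : C.pos k0 y ∈ C.B := C.R.smul_mem _ _ hk0

theorem chain_sep {l : V} (n : ℕ) (p : ℕ → V) (h : Sep C.T l (p 0) (p n)) (hl : ∀ i, p i ≠ l) :
    ∃ i < n, Sep C.T l (p i) (p (i + 1)) := by
  induction n with
  | zero =>
    exfalso
    unfold Sep at h
    rw [SimpleGraph.dist_self] at h
    have := (C.R.tree.connected.dist_eq_zero_iff (u := p 0) (v := l)).1 (by omega)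
    exact hl 0 this
  | succ n ih =>
    rcases h.or C.R.tree (p n) with h1 | h1
    · obtain ⟨i, hi, hi'⟩ := ih h1
      exact ⟨i, by omega, hi'⟩
    · exact ⟨n, by omega, h1⟩

/-- **translates of big pieces are on one side of each line** -/
theorem one_side {k0 : V} (hk0 : k0 ∈ C.K0) (hk0B : k0 ∈ C.B) : ∃ s1 : ℕ, ∀ (h : H) (v l : V),
    v ∈ C.B → l ∉ C.B → ∀ y ∈ C.Y v, ∀ y' ∈ C.Y v, h * y ∉ C.N s1 (C.Y l) →
    h * y' ∉ C.N s1 (C.Y l) → ¬ Sep C.T l (C.pos k0 (h * y)) (C.pos k0 (h * y')) := by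
  classical
  obtain ⟨c, hc⟩ := C.coset
  obtain ⟨s1, hs1⟩ := finset_unif (α := ℕ) C.K0 (fun k s1 => k ∈ C.B → ∀ (h : H) (g0 : G) (l : V),
    l ∉ C.B → ∀ y ∈ C.Y (g0 • k), ∀ y' ∈ C.Y (g0 • k), h * y ∉ C.N s1 (C.Y l) →
    h * y' ∉ C.N s1 (C.Y l) → ¬ Sep C.T l (C.pos k0 (h * y)) (C.pos k0 (h * y')))
    (by
      intro k m n hmn hm hk h g0 l hl y hy y' hy' h1 h2
      exact hm hk h g0 l hl y hy y' hy' (fun hc => h1 (C.N_mono hmn _ hc))
        (fun hc => h2 (C.N_mono hmn _ hc)))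
    (by
      intro k hk
      by_cases hkB : k ∈ C.B
      swap
      · exact ⟨0, fun h => absurd h hkB⟩
      obtain ⟨S, hS, hrig⟩ := C.R.rigid k hkB
      have hL := isLen_wlen S hS
      -- generators have bounded length in G
      obtain ⟨cg, hcg⟩ := finite_bound S.finite_toSet (fun a => C.lG (a : G))
      -- distance from points of the piece to the coset
      obtain ⟨c3, hc3⟩ : ∃ c3, c3 = C.K * (C.K + c + C.K) + C.K := ⟨_, rfl⟩
      obtain ⟨c5, hc5⟩ : ∃ c5, c5 = C.K * (cg + 2 * C.K) + C.K := ⟨_, rfl⟩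
      obtain ⟨r1, hr1⟩ := C.cross (max c3 c5)
      obtain ⟨ρ, hρ⟩ := C.LL_coarse k S hS r1
      obtain ⟨s, hs⟩ := hrig ρ 0
      obtain ⟨A, hA⟩ := finite_bound (hL.fin s) (fun a => C.lG (a : G))
      refine ⟨c3 + (C.K * (A + 2 * C.K) + C.K + r1), ?_⟩
      intro _ h g0 l hl y hy y' hy' h1 h2 hsep
      have near : ∀ y ∈ C.Y (g0 • k), ∃ a : ↥(MulAction.stabilizer G k),
          C.lH (y⁻¹ * C.sg (g0 * (a : G))) ≤ c3 := by
        rintro y ⟨g, hg1, hg2⟩
        obtain ⟨a, ha1, ha2⟩ := hc k g0 g hk hg1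
        refine ⟨⟨a, ha1⟩, ?_⟩
        refine (C.hf2 _ _).trans ?_
        have a1 := C.hG.tri (C.f y) g (C.f (C.sg (g0 * a)))
        have a2 := C.hG.tri g (g0 * a) (C.f (C.sg (g0 * a)))
        have a3 := C.hsg (g0 * a)
        have : C.lG ((C.f y)⁻¹ * C.f (C.sg (g0 * a))) ≤ C.K + c + C.K := by omega
        have := Nat.mul_le_mul_left C.K this
        show C.K * C.lG ((C.f y)⁻¹ * C.f (C.sg (g0 * a))) + C.K ≤ c3
        omega
      obtain ⟨a, ha⟩ := near y hy
      obtain ⟨a', ha'⟩ := near y' hy'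
      obtain ⟨_, hjoin⟩ := hs _ (hρ h g0 l hl)
      have outside : ∀ (y : H) (a : ↥(MulAction.stabilizer G k)),
          C.lH (y⁻¹ * C.sg (g0 * (a : G))) ≤ c3 →
          h * y ∉ C.N (c3 + (C.K * (A + 2 * C.K) + C.K + r1)) (C.Y l) →
          a ∉ nbhd S s (C.LL k r1 h g0 l) := by
        rintro y a hya hy ⟨b, hb, hab⟩
        apply hy
        have hb' : h * C.sg (g0 * (b : G)) ∈ C.N r1 (C.Y l) := hb
        have d1 : C.lH ((h * C.sg (g0 * (a : G)))⁻¹ * (h * C.sg (g0 * (b : G)))) ≤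
            C.K * (A + 2 * C.K) + C.K := by
          rw [C.hH.left]
          refine (C.sg_dist _ _).trans ?_
          have e2 : (g0 * (a : G))⁻¹ * (g0 * (b : G)) =
              ((a⁻¹ * b : ↥(MulAction.stabilizer G k)) : G) := by push_cast; group
          rw [e2]
          have := hA (a⁻¹ * b) hab
          have := Nat.mul_le_mul_left C.K (Nat.add_le_add_right this (2 * C.K))
          omega
        have d2 : C.lH ((h * y)⁻¹ * (h * C.sg (g0 * (a : G)))) ≤ c3 := by
          rw [C.hH.left]; exact hya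
        exact C.N_trans (C.N_trans hb' d1) d2
      obtain ⟨n, γ, hγ0, hγn, hγo, hγs⟩ := hjoin a a' (outside y a ha h1) (outside y' a' ha' h2)
      -- the chain of points of H
      let z : ℕ → H := fun i => if i = 0 then h * y else if i ≤ n + 1 then
        h * C.sg (g0 * (γ (i - 1) : G)) else h * y'
      have z0 : z 0 = h * y := by simp [z]
      have zmid : ∀ i, i ≤ n → z (i + 1) = h * C.sg (g0 * (γ i : G)) := by
        intro i hi
        simp only [z]
        rw [if_neg (by omega), if_pos (by omega)]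
        simp
      have zend : z (n + 2) = h * y' := by
        simp only [z]
        rw [if_neg (by omega), if_neg (by omega)]
      have steps : ∀ i < n + 2, C.lH ((z i)⁻¹ * z (i + 1)) ≤ max c3 c5 ∧
          ∃ j ≤ n, z i = h * C.sg (g0 * (γ j : G)) ∨ z (i + 1) = h * C.sg (g0 * (γ j : G)) := by
        intro i hi
        rcases Nat.eq_zero_or_pos i with rfl | hi0
        · refine ⟨?_, 0, by omega, Or.inr (zmid 0 (by omega))⟩
          rw [z0, zmid 0 (by omega), hγ0, C.hH.left]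
          exact ha.trans (le_max_left _ _)
        · obtain ⟨j, rfl⟩ : ∃ j, i = j + 1 := ⟨i - 1, by omega⟩
          rcases Nat.lt_or_ge j n with hj | hj
          · refine ⟨?_, j, by omega, Or.inl (zmid j (by omega))⟩
            rw [zmid j (by omega), zmid (j + 1) (by omega), C.hH.left]
            refine le_trans ((C.sg_dist _ _).trans ?_) (le_max_right _ _)
            have e2 : (g0 * (γ j : G))⁻¹ * (g0 * (γ (j + 1) : G)) =
              (((γ j)⁻¹ * γ (j + 1) : ↥(MulAction.stabilizer G k)) : G) := by push_cast; group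
            rw [e2]
            have : C.lG (((γ j)⁻¹ * γ (j + 1) : ↥(MulAction.stabilizer G k)) : G) ≤ cg := by
              rcases hγs j hj with hh | hh
              · exact hcg _ hh
              · have := hcg _ hh
                have e3 : (((γ (j + 1))⁻¹ * γ j : ↥(MulAction.stabilizer G k)) : G) =
                  ((((γ j)⁻¹ * γ (j + 1) : ↥(MulAction.stabilizer G k)) : G))⁻¹ := by
                  push_cast; group
                simp only [e3, C.hG.inv] at this
                exact this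
            have := Nat.mul_le_mul_left C.K (Nat.add_le_add_right this (2 * C.K))
            omega
          · have : j = n := by omega
            subst this
            refine ⟨?_, j, le_rfl, Or.inl (zmid j le_rfl)⟩
            rw [zmid j le_rfl, hγn, show j + 1 + 1 = j + 2 from rfl, zend, C.hH.left, C.hH.comm]
            exact ha'.trans (le_max_left _ _)
      obtain ⟨i, hi, hi'⟩ := C.chain_sep (l := l) (n + 2) (fun i => C.pos k0 (z i))
        (by simp only [z0, zend]; exact hsep)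
        (by intro i he; exact hl (he ▸ C.pos_big hk0B _))
      obtain ⟨st1, j, hj, st2⟩ := steps i hi
      have m1 := hr1 (z i) (z (i + 1)) _ _ l (C.pos_mem hk0 _) (C.pos_mem hk0 _) st1 hi'
      have m2 := hr1 (z (i + 1)) (z i) _ _ l (C.pos_mem hk0 _) (C.pos_mem hk0 _)
        (by rw [C.hH.comm]; exact st1) hi'.symm
      have hmem : γ j ∈ C.LL k r1 h g0 l := by
        show h * C.sg (g0 * (γ j : G)) ∈ C.N r1 (C.Y l)
        rcases st2 with e | e
        · rw [← e]; exact m1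
        · rw [← e]; exact m2
      apply hγo j hj
      exact ⟨γ j, hmem, by rw [inv_mul_cancel, hL.one]⟩)
  refine ⟨s1, ?_⟩
  intro h v l hv hl y hy y' hy' h1 h2
  obtain ⟨g0, k, hk, rfl⟩ := C.hK0 v
  have hkB : k ∈ C.B := by
    have := C.R.smul_mem g0⁻¹ _ hv
    rwa [inv_smul_smul] at this
  exact hs1 k hk hkB h g0 l hl y hy y' hy' h1 h2

end Ctx

end Pool.Agent.Helper99
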