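import Pool.Agent.Helper99_qis.Defs
import Pool.Agent.H895R2.SB.TrM

set_option autoImplicit false

/-! Collapsing a tree with group action onto one orbit of edges. -/

namespace Pool.Agent.Helper99

open Pool.Agent.H895R2.SB

section
variable {V : Type} {T : SimpleGraph V}

theorem side_step (hT : T.IsTree) {a b u u' : V} (hab : T.Adj a b) (huu : T.Adj u u')
    (h1 : T.dist u a < T.dist u b) (h2 : T.dist u' b < T.dist u' a) : u = a ∧ u' = b := by
  have e1 := adj_dist hT u hab
  have e2 := adj_dist hT u' hab
  have e3 := adj_dist hT a huu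
  have e4 := adj_dist hT b huu
  have c1 := dcomm (T := T) u a
  have c2 := dcomm (T := T) u b
  have c3 := dcomm (T := T) u' a
  have c4 := dcomm (T := T) u' b
  have f := four_point hT u b u' a
  have d1 : T.dist u u' = 1 := SimpleGraph.dist_eq_one_iff_adj.2 huu
  have d2 : T.dist b a = 1 := SimpleGraph.dist_eq_one_iff_adj.2 hab.symm
  have key : T.dist u a = 0 ∧ T.dist u' b = 0 := by
    rcases le_max_iff.1 f with f | f <;> omega
  exact ⟨(hT.connected.dist_eq_zero_iff).1 key.1, (hT.connected.dist_eq_zero_iff).1 key.2⟩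

theorem side_dich (hT : T.IsTree) {a b : V} (hab : T.Adj a b) (u : V) :
    T.dist u a < T.dist u b ∨ T.dist u b < T.dist u a := by
  rcases adj_dist hT u hab with h | h <;> omega

end

section
variable {H V : Type} [Group H] [MulAction H V] (T : SimpleGraph V) (a b : V)

/-- the pair is in the orbit of the edge -/
def InOrb (H : Type) {V : Type} [Group H] [MulAction H V] (a b u v : V) : Prop :=
  ∃ h : H, (h • a = u ∧ h • b = v) ∨ (h • a = v ∧ h • b = u)

theorem InOrb.symm' {H V : Type} [Group H] [MulAction H V] {a b u v : V} (h : InOrb H a b u v) :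
    InOrb H a b v u := by
  obtain ⟨k, hk⟩ := h
  exact ⟨k, hk.symm⟩

theorem InOrb.smul' {H V : Type} [Group H] [MulAction H V] {a b u v : V} (k : H)
    (h : InOrb H a b u v) : InOrb H a b (k • u) (k • v) := by
  obtain ⟨g, hg⟩ := h
  refine ⟨k * g, ?_⟩
  rcases hg with ⟨h1, h2⟩ | ⟨h1, h2⟩
  · left; rw [mul_smul, mul_smul, h1, h2]; exact ⟨rfl, rfl⟩
  · right; rw [mul_smul, mul_smul, h1, h2]; exact ⟨rfl, rfl⟩

/-- the edges outside the orbit -/
def KG (H : Type) {V : Type} [Group H] [MulAction H V] (T : SimpleGraph V) (a b : V) :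
    SimpleGraph V where
  Adj u v := T.Adj u v ∧ ¬ InOrb H a b u v
  symm := ⟨fun _ _ h => ⟨h.1.symm, fun h' => h.2 h'.symm'⟩⟩
  loopless := ⟨fun _ h => T.loopless.1 _ h.1⟩

/-- the vertices of the collapsed tree -/
abbrev CV (H : Type) {V : Type} [Group H] [MulAction H V] (T : SimpleGraph V) (a b : V) : Type :=
  (KG H T a b).ConnectedComponent

/-- the collapsed tree -/
def CT (H : Type) {V : Type} [Group H] [MulAction H V] (T : SimpleGraph V) (a b : V) :
    SimpleGraph (CV H T a b) where
  Adj c c' := c ≠ c' ∧ ∃ u u' : V, (KG H T a b).connectedComponentMk u = c ∧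
    (KG H T a b).connectedComponentMk u' = c' ∧ T.Adj u u'
  symm := ⟨fun _ _ ⟨h1, u, u', h2, h3, h4⟩ => ⟨h1.symm, u', u, h3, h2, h4.symm⟩⟩
  loopless := ⟨fun _ h => h.1 rfl⟩

variable {T a b}

theorem mk_eq_of_adj {u u' : V} (h : T.Adj u u') (h' : ¬ InOrb H a b u u') :
    (KG H T a b).connectedComponentMk u = (KG H T a b).connectedComponentMk u' :=
  SimpleGraph.ConnectedComponent.sound (SimpleGraph.Adj.reachable ⟨h, h'⟩)

/-- sides are constant on the components -/
theorem side_const (hT : T.IsTree) {u u' : V} (huu : T.Adj u u') (ho : InOrb H a b u u') {x y : V}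
    (h : (KG H T a b).connectedComponentMk x = (KG H T a b).connectedComponentMk y) :
    T.dist x u < T.dist x u' → T.dist y u < T.dist y u' := by
  have hr : (KG H T a b).Reachable x y := SimpleGraph.ConnectedComponent.exact h
  obtain ⟨w⟩ := hr
  induction w with
  | nil => exact id
  | cons hadj p ih =>
    rename_i x z y
    intro hx
    apply ih (SimpleGraph.ConnectedComponent.sound p.reachable)
    rcases side_dich hT huu z with h1 | h1
    · exact h1
    · exfalso
      obtain ⟨e1, e2⟩ := side_step hT huu hadj.1 hx h1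
      rw [e1, e2] at hadj
      exact hadj.2 ho

theorem mk_ne (hT : T.IsTree) {u u' : V} (huu : T.Adj u u') (ho : InOrb H a b u u') :
    (KG H T a b).connectedComponentMk u ≠ (KG H T a b).connectedComponentMk u' := by
  intro h
  have h1 : T.dist u u < T.dist u u' := by
    rw [SimpleGraph.dist_self, SimpleGraph.dist_eq_one_iff_adj.2 huu]; norm_num
  have h2 := side_const hT huu ho h h1
  rw [SimpleGraph.dist_self] at h2
  omega

/-- the edge between two adjacent components is unique -/
theorem edge_unique (hT : T.IsTree) {u u' x x' : V} (huu : T.Adj u u') (hxx : T.Adj x x')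
    (hne : (KG H T a b).connectedComponentMk u ≠ (KG H T a b).connectedComponentMk u')
    (h1 : (KG H T a b).connectedComponentMk u = (KG H T a b).connectedComponentMk x)
    (h2 : (KG H T a b).connectedComponentMk u' = (KG H T a b).connectedComponentMk x') :
    x = u ∧ x' = u' := by
  have ho : InOrb H a b u u' := by
    by_contra hc
    exact hne (mk_eq_of_adj huu hc)
  have s1 : T.dist u u < T.dist u u' := by
    rw [SimpleGraph.dist_self, SimpleGraph.dist_eq_one_iff_adj.2 huu]; norm_num
  have s2 : T.dist u' u' < T.dist u' u := by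
    rw [SimpleGraph.dist_self, SimpleGraph.dist_eq_one_iff_adj.2 huu.symm]; norm_num
  have s3 := side_const hT huu ho h1 s1
  have s4 := side_const hT huu.symm ho.symm' h2 s2
  exact side_step hT huu hxx s3 s4

theorem CT_tree (hT : T.IsTree) : (CT H T a b).IsTree := by
  classical
  have hreach : ∀ u v : V, T.Reachable u v → (CT H T a b).Reachable
      ((KG H T a b).connectedComponentMk u) ((KG H T a b).connectedComponentMk v) := by
    rintro u v ⟨w⟩
    induction w with
    | nil => exact SimpleGraph.Reachable.refl _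
    | cons hadj p ih =>
      rename_i x z y
      refine SimpleGraph.Reachable.trans ?_ ih
      by_cases he : (KG H T a b).connectedComponentMk x = (KG H T a b).connectedComponentMk z
      · rw [he]
      · exact SimpleGraph.Adj.reachable ⟨he, x, z, rfl, rfl, hadj⟩
  refine ⟨?_, ?_⟩
  · have : Nonempty (CV H T a b) := by
      obtain ⟨v⟩ := hT.connected.nonempty
      exact ⟨(KG H T a b).connectedComponentMk v⟩
    refine ⟨?_⟩
    intro c c'
    induction c using SimpleGraph.ConnectedComponent.ind with
    | h u =>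
      induction c' using SimpleGraph.ConnectedComponent.ind with
      | h v => exact hreach u v (hT.connected.preconnected u v)
  · rw [SimpleGraph.isAcyclic_iff_forall_adj_isBridge]
    rintro c c' hcc
    rw [SimpleGraph.isBridge_iff]
    obtain ⟨hne, u, u', rfl, rfl, huu⟩ := hcc
    have ho : InOrb H a b u u' := by
      by_contra hc
      exact hne (mk_eq_of_adj huu hc)
    -- the invariant
    have key : ∀ d d' : CV H T a b, ((CT H T a b).deleteEdges
        {s((KG H T a b).connectedComponentMk u, (KG H T a b).connectedComponentMk u')}).Reachable d d' →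
        (∃ x, (KG H T a b).connectedComponentMk x = d ∧ T.dist x u < T.dist x u') →
        ∃ x, (KG H T a b).connectedComponentMk x = d' ∧ T.dist x u < T.dist x u' := by
      rintro d d' ⟨w⟩
      induction w with
      | nil => exact id
      | cons hadj p ih =>
        rename_i d1 d2 d3
        rintro ⟨x, rfl, hx⟩
        apply ih
        rw [SimpleGraph.deleteEdges_adj] at hadj
        obtain ⟨⟨hne', y, y', h1, h2, h3⟩, h4⟩ := hadj
        refine ⟨y', h2, ?_⟩
        have hy := side_const hT huu ho h1.symm hx
        rcases side_dich hT huu y' with h5 | h5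
        · exact h5
        · exfalso
          obtain ⟨e1, e2⟩ := side_step hT huu h3 hy h5
          subst e1
          subst e2
          apply h4
          rw [← h1, ← h2]
          rfl
    intro hr
    obtain ⟨x, hx1, hx2⟩ := key _ _ hr ⟨u, rfl, by
      rw [SimpleGraph.dist_self, SimpleGraph.dist_eq_one_iff_adj.2 huu]; norm_num⟩
    have := side_const hT huu ho hx1 hx2
    rw [SimpleGraph.dist_self] at this
    omega

/-- the action as graph homomorphisms -/
def khom (hadj : ∀ (g : H) (u v : V), T.Adj u v → T.Adj (g • u) (g • v)) (g : H) :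
    KG H T a b →g KG H T a b where
  toFun u := g • u
  map_rel' := by
    rintro u v ⟨h1, h2⟩
    refine ⟨hadj g u v h1, fun h3 => h2 ?_⟩
    have := h3.smul' g⁻¹
    rwa [inv_smul_smul, inv_smul_smul] at this

/-- the action on the components -/
@[reducible] def cact (hadj : ∀ (g : H) (u v : V), T.Adj u v → T.Adj (g • u) (g • v)) :
    MulAction H (CV H T a b) where
  smul g c := c.map (khom hadj g)
  one_smul c := by
    induction c using SimpleGraph.ConnectedComponent.ind with
    | h u =>
      show (KG H T a b).connectedComponentMk ((1 : H) • u) = _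
      rw [one_smul]
  mul_smul g g' c := by
    induction c using SimpleGraph.ConnectedComponent.ind with
    | h u =>
      show (KG H T a b).connectedComponentMk ((g * g') • u) =
        (KG H T a b).connectedComponentMk (g • g' • u)
      rw [mul_smul]

theorem splits_of_action (hT : T.IsTree)
    (hadj : ∀ (g : H) (u v : V), T.Adj u v → T.Adj (g • u) (g • v))
    (hinv : ∀ (g : H) (u v : V), T.Adj u v → ¬ (g • u = v ∧ g • v = u))
    (hst : ∀ u v : V, T.Adj u v →
      IsTwoEnded ↥(MulAction.stabilizer H u ⊓ MulAction.stabilizer H v))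
    (hab : T.Adj a b)
    (hmin : ∀ z : V, (∃ h : H, T.dist (h • z) a < T.dist (h • z) b) ∧
      (∃ h : H, T.dist (h • z) b < T.dist (h • z) a)) : SplitsOverTwoEnded H := by
  classical
  let act : MulAction H (CV H T a b) := cact hadj
  have smul_mk : ∀ (g : H) (u : V), g • (KG H T a b).connectedComponentMk u =
      (KG H T a b).connectedComponentMk (g • u) := fun g u => rfl
  refine ⟨CV H T a b, CT H T a b, act, CT_tree hT, ?_, ?_, ?_, ?_, ?_⟩
  · rintro g c c' ⟨hne, u, u', rfl, rfl, huu⟩
    refine ⟨fun h => hne (MulAction.injective g h), g • u, g • u', rfl, rfl, hadj g u u' huu⟩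
  · rintro g c c' ⟨hne, u, u', rfl, rfl, huu⟩ ⟨h1, h2⟩
    rw [smul_mk] at h1 h2
    obtain ⟨e1, e2⟩ := edge_unique hT huu (hadj g u u' huu).symm hne h2.symm h1.symm
    exact hinv g u u' huu ⟨e2, e1⟩
  · rintro ⟨c, hc⟩
    induction c using SimpleGraph.ConnectedComponent.ind with
    | h z =>
      obtain ⟨⟨h, hh⟩, h', hh'⟩ := hmin z
      have ho : InOrb H a b a b := ⟨1, Or.inl ⟨one_smul _ _, one_smul _ _⟩⟩
      have e1 := hc h
      have e2 := hc h'
      rw [smul_mk] at e1 e2
      have := side_const hT hab ho (e1.trans e2.symm) hh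
      omega
  · rintro c1 c2 c3 c4 ⟨hne, u, u', rfl, rfl, huu⟩ ⟨hne', x, x', rfl, rfl, hxx⟩
    obtain ⟨k, hk⟩ : InOrb H a b u u' := by
      by_contra hc
      exact hne (mk_eq_of_adj huu hc)
    obtain ⟨l, hl⟩ : InOrb H a b x x' := by
      by_contra hc
      exact hne' (mk_eq_of_adj hxx hc)
    refine ⟨l * k⁻¹, ?_⟩
    have f1 : ∀ p q : V, k • p = q → (l * k⁻¹) • q = l • p := by
      intro p q h
      rw [← h, mul_smul, inv_smul_smul]
    simp only [smul_mk]
    rcases hk with ⟨k1, k2⟩ | ⟨k1, k2⟩ <;> rcases hl with ⟨l1, l2⟩ | ⟨l1, l2⟩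
    · left; rw [f1 _ _ k1, f1 _ _ k2, l1, l2]; exact ⟨rfl, rfl⟩
    · right; rw [f1 _ _ k1, f1 _ _ k2, l1, l2]; exact ⟨rfl, rfl⟩
    · right; rw [f1 _ _ k1, f1 _ _ k2, l1, l2]; exact ⟨rfl, rfl⟩
    · left; rw [f1 _ _ k1, f1 _ _ k2, l1, l2]; exact ⟨rfl, rfl⟩
  · rintro c c' ⟨hne, u, u', rfl, rfl, huu⟩
    have : MulAction.stabilizer H ((KG H T a b).connectedComponentMk u) ⊓
        MulAction.stabilizer H ((KG H T a b).connectedComponentMk u') =
        MulAction.stabilizer H u ⊓ MulAction.stabilizer H u' := by
      ext g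
      simp only [Subgroup.mem_inf, MulAction.mem_stabilizer_iff, smul_mk]
      constructor
      · rintro ⟨h1, h2⟩
        exact edge_unique hT huu (hadj g u u' huu) hne h1.symm h2.symm
      · rintro ⟨h1, h2⟩
        rw [h1, h2]
        exact ⟨rfl, rfl⟩
    rw [this]
    exact hst u u' huu

end

end Pool.Agent.Helper99
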