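import Pool.Agent.Helper99_qis.Len
import Pool.Agent.H895R2.SB.TrM

set_option autoImplicit false

/-! The coarse tree of spaces carried by a group quasi-isometric to `G`. -/

namespace Pool.Agent.Helper99

open Pool.Agent.H895R2.SB

/-- all the data -/
structure Ctx (G H V : Type) [Group G] [Group H] [MulAction G V] where
  T : SimpleGraph V
  B : Set V
  R : RigidLineTree G V T B
  lG : G → ℕ
  lH : H → ℕ
  hG : IsLen lG
  hH : IsLen lH
  f : H → G
  K : ℕ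
  hf1 : ∀ x y : H, lG ((f x)⁻¹ * f y) ≤ K * lH (x⁻¹ * y) + K
  hf2 : ∀ x y : H, lH (x⁻¹ * y) ≤ K * lG ((f x)⁻¹ * f y) + K
  sg : G → H
  hsg : ∀ g : G, lG (g⁻¹ * f (sg g)) ≤ K
  K0 : Finset V
  hK0 : ∀ v : V, ∃ g : G, ∃ k ∈ K0, g • k = v

/-- bounds which are uniform over a finite set -/
theorem finset_unif {ι α : Type} [SemilatticeSup α] [Nonempty α] (K : Finset ι) (P : ι → α → Prop)
    (mono : ∀ i m n, m ≤ n → P i m → P i n) (h : ∀ i ∈ K, ∃ n, P i n) : ∃ n, ∀ i ∈ K, P i n := by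
  classical
  induction K using Finset.induction_on with
  | empty => exact ⟨Classical.arbitrary α, by simp⟩
  | insert a s _ ih =>
    obtain ⟨n, hn⟩ := ih (fun i hi => h i (Finset.mem_insert_of_mem hi))
    obtain ⟨m, hm⟩ := h a (Finset.mem_insert_self _ _)
    refine ⟨n ⊔ m, ?_⟩
    intro i hi
    rcases Finset.mem_insert.1 hi with rfl | hi
    · exact mono _ _ _ le_sup_right hm
    · exact mono _ _ _ le_sup_left (hn i hi)

/-- a function is bounded on a finite set -/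
theorem finite_bound {α : Type} {s : Set α} (hs : s.Finite) (φ : α → ℕ) : ∃ n, ∀ x ∈ s, φ x ≤ n := by
  obtain ⟨n, hn⟩ := finset_unif (α := ℕ) hs.toFinset (fun x n => φ x ≤ n)
    (fun _ _ _ h h' => h'.trans h) (fun x _ => ⟨φ x, le_rfl⟩)
  exact ⟨n, fun x hx => hn x (hs.mem_toFinset.2 hx)⟩

/-- `l` lies between `a` and `b` -/
def Sep {V : Type} (T : SimpleGraph V) (l a b : V) : Prop := T.dist a l + T.dist l b = T.dist a b

section
variable {V : Type} {T : SimpleGraph V}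

theorem Sep.symm {l a b : V} (h : Sep T l a b) : Sep T l b a := by
  unfold Sep at *
  have h1 := dcomm (T := T) a l
  have h2 := dcomm (T := T) l b
  have h3 := dcomm (T := T) a b
  omega

theorem Sep.or (hT : T.IsTree) {l a c : V} (h : Sep T l a c) (b : V) : Sep T l a b ∨ Sep T l b c := by
  unfold Sep at *
  have f := four_point hT a c l b
  have h1 := dcomm (T := T) l c
  have h2 := dcomm (T := T) b l
  have h3 := dcomm (T := T) c b
  have t1 := tri hT a l b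
  have t2 := tri hT b l c
  rcases le_max_iff.1 f with f | f
  · right; omega
  · left; omega

theorem between_finite (hT : T.IsTree) (a b : V) : {l | Sep T l a b}.Finite := by
  have : Set.InjOn (fun l => T.dist a l) {l | Sep T l a b} := by
    intro p hp q hq h
    exact geo_unique hT hp hq h
  apply Set.Finite.of_finite_image _ this
  apply (Set.finite_Iic (T.dist a b)).subset
  rintro _ ⟨l, hl, rfl⟩
  have : T.dist a l + T.dist l b = T.dist a b := hl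
  simp only [Set.mem_Iic]
  omega

end

namespace Ctx

variable {G H V : Type} [Group G] [Group H] [MulAction G V] (C : Ctx G H V)

/-- the part of `H` near the vertex `v` -/
def Y (v : V) : Set H := {y | ∃ g : G, g⁻¹ • v ∈ C.K0 ∧ C.lG ((C.f y)⁻¹ * g) ≤ C.K}

/-- neighbourhoods in `H` -/
def N (s : ℕ) (A : Set H) : Set H := {y | ∃ z ∈ A, C.lH (y⁻¹ * z) ≤ s}

theorem N_mono {s s' : ℕ} (h : s ≤ s') (A : Set H) : C.N s A ⊆ C.N s' A := by
  rintro y ⟨z, hz, hz'⟩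
  exact ⟨z, hz, hz'.trans h⟩

theorem N_trans {s s' : ℕ} {A : Set H} {x y : H} (h : y ∈ C.N s A) (hxy : C.lH (x⁻¹ * y) ≤ s') :
    x ∈ C.N (s' + s) A := by
  obtain ⟨z, hz, hz'⟩ := h
  exact ⟨z, hz, (C.hH.tri x y z).trans (by omega)⟩

theorem N_self {s : ℕ} {A : Set H} {y : H} (h : y ∈ A) : y ∈ C.N s A :=
  ⟨y, h, by rw [C.hH.self]; omega⟩

theorem sg_mem {g : G} {v : V} (h : g⁻¹ • v ∈ C.K0) : C.sg g ∈ C.Y v :=
  ⟨g, h, by rw [C.hG.comm]; exact C.hsg g⟩

theorem Y_nonempty (v : V) : ∃ y, y ∈ C.Y v := by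
  obtain ⟨g, k, hk, rfl⟩ := C.hK0 v
  exact ⟨C.sg g, C.sg_mem (by rwa [inv_smul_smul])⟩

/-- reaching a vertex in a bounded number of steps -/
theorem reach {P : Set V} (hP : P.Finite) : ∃ κ : ℕ, ∀ (y : H) (g : G) (w : V),
    C.lG ((C.f y)⁻¹ * g) ≤ C.K → g⁻¹ • w ∈ P → y ∈ C.N κ (C.Y w) := by
  choose x k hk hxk using C.hK0
  obtain ⟨n, hn⟩ := finite_bound hP (fun u => C.lG (x u))
  refine ⟨C.K * (C.K + n + C.K) + C.K, ?_⟩
  intro y g w h1 h2
  have hX : (g * x (g⁻¹ • w))⁻¹ • w ∈ C.K0 := by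
    rw [mul_inv_rev, mul_smul]
    have := hxk (g⁻¹ • w)
    rw [← eq_inv_smul_iff] at this
    rw [← this]
    exact hk _
  refine ⟨C.sg (g * x (g⁻¹ • w)), C.sg_mem hX, ?_⟩
  refine (C.hf2 _ _).trans ?_
  have a1 := C.hG.tri (C.f y) g (C.f (C.sg (g * x (g⁻¹ • w))))
  have a2 := C.hG.tri g (g * x (g⁻¹ • w)) (C.f (C.sg (g * x (g⁻¹ • w))))
  have a3 := C.hsg (g * x (g⁻¹ • w))
  have a4 : C.lG (g⁻¹ * (g * x (g⁻¹ • w))) ≤ n := by
    rw [inv_mul_cancel_left]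
    exact hn _ h2
  have : C.lG ((C.f y)⁻¹ * C.f (C.sg (g * x (g⁻¹ • w)))) ≤ C.K + n + C.K := by omega
  have := Nat.mul_le_mul_left C.K this
  omega

/-- crossing a vertex -/
theorem cross (s : ℕ) : ∃ κ : ℕ, ∀ (y y' : H) (a b l : V), y ∈ C.Y a → y' ∈ C.Y b →
    C.lH (y⁻¹ * y') ≤ s → Sep C.T l a b → y ∈ C.N κ (C.Y l) := by
  classical
  have hball := C.hG.fin (C.K + (C.K * s + C.K) + C.K)
  let P : Set V := ⋃ k ∈ (C.K0 : Set V), ⋃ k' ∈ (C.K0 : Set V),
    ⋃ x ∈ {x : G | C.lG x ≤ C.K + (C.K * s + C.K) + C.K}, {l | Sep C.T l k (x • k')}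
  have hP : P.Finite := by
    apply Set.Finite.biUnion C.K0.finite_toSet
    intro k _
    apply Set.Finite.biUnion C.K0.finite_toSet
    intro k' _
    apply Set.Finite.biUnion hball
    intro x _
    exact between_finite C.R.tree _ _
  obtain ⟨κ, hκ⟩ := C.reach hP
  refine ⟨κ, ?_⟩
  rintro y y' a b l ⟨g, hg1, hg2⟩ ⟨g', hg1', hg2'⟩ hyy hsep
  apply hκ y g l hg2
  simp only [P, Set.mem_iUnion]
  refine ⟨g⁻¹ • a, hg1, g'⁻¹ • b, hg1', g⁻¹ * g', ?_, ?_⟩
  · have a1 := C.hG.tri g (C.f y) g'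
    have a2 := C.hG.tri (C.f y) (C.f y') g'
    have a3 := C.hf1 y y'
    have a4 := C.hG.comm g (C.f y)
    have a5 := Nat.mul_le_mul_left C.K hyy
    show C.lG (g⁻¹ * g') ≤ _
    omega
  · have e : (g⁻¹ * g') • g'⁻¹ • b = g⁻¹ • b := by
      rw [mul_smul, smul_inv_smul]
    rw [e]
    have hd : ∀ p q : V, C.T.dist (g⁻¹ • p) (g⁻¹ • q) = C.T.dist p q := by
      have hle : ∀ (γ : G) (p q : V), C.T.dist (γ • p) (γ • q) ≤ C.T.dist p q := by
        intro γ p q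
        obtain ⟨w, hw⟩ := C.R.tree.connected.exists_walk_length_eq_dist p q
        let φ : C.T →g C.T := ⟨fun v => γ • v, fun {u v} h => C.R.smul_adj γ u v h⟩
        have h1 := C.T.dist_le (w.map φ)
        rw [SimpleGraph.Walk.length_map, hw] at h1
        exact h1
      intro p q
      apply le_antisymm (hle _ _ _)
      have := hle g (g⁻¹ • p) (g⁻¹ • q)
      rwa [smul_inv_smul, smul_inv_smul] at this
    show Sep C.T (g⁻¹ • l) (g⁻¹ • a) (g⁻¹ • b)
    unfold Sep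
    rw [hd, hd, hd]
    exact hsep

/-- lines are close to their neighbours -/
theorem nbr_near : ∃ κ : ℕ, ∀ (l v : V), l ∉ C.B → C.T.Adj l v → C.Y l ⊆ C.N κ (C.Y v) := by
  classical
  let P : Set V := ⋃ k ∈ {k | k ∈ (C.K0 : Set V) ∧ k ∉ C.B}, {v | C.T.Adj k v}
  have hP : P.Finite := by
    apply Set.Finite.biUnion (C.K0.finite_toSet.subset (fun k hk => hk.1))
    intro k hk
    exact C.R.nbr_finite k hk.2
  obtain ⟨κ, hκ⟩ := C.reach hP
  refine ⟨κ, ?_⟩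
  rintro l v hl hlv y ⟨g, hg1, hg2⟩
  apply hκ y g v hg2
  simp only [P, Set.mem_iUnion]
  refine ⟨g⁻¹ • l, ⟨hg1, ?_⟩, C.R.smul_adj _ _ _ hlv⟩
  intro hB
  apply hl
  have := C.R.smul_mem g _ hB
  rwa [smul_inv_smul] at this

/-- finitely many vertices are near a point -/
theorem fin_near (y : H) (κ : ℕ) : {v | y ∈ C.N κ (C.Y v)}.Finite := by
  classical
  have hball := C.hG.fin (C.K * κ + C.K + C.K)
  have : {v | y ∈ C.N κ (C.Y v)} ⊆ ⋃ x ∈ {x : G | C.lG x ≤ C.K * κ + C.K + C.K},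
      ⋃ k ∈ (C.K0 : Set V), {(C.f y * x) • k} := by
    rintro v ⟨z, ⟨g, hg1, hg2⟩, hz⟩
    simp only [Set.mem_iUnion]
    refine ⟨(C.f y)⁻¹ * g, ?_, g⁻¹ • v, hg1, ?_⟩
    · have a1 := C.hG.tri (C.f y) (C.f z) g
      have a2 := C.hf1 y z
      have a3 := Nat.mul_le_mul_left C.K hz
      show C.lG ((C.f y)⁻¹ * g) ≤ _
      omega
    · rw [mul_inv_cancel_left, smul_inv_smul]; rfl
  apply Set.Finite.subset _ this
  apply Set.Finite.biUnion hball
  intro x _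
  apply Set.Finite.biUnion C.K0.finite_toSet
  intro k _
  exact Set.finite_singleton _

/-- a finite set which joins the representatives in one orbit -/
theorem conn : ∃ Q : Set G, Q.Finite ∧ ∀ k ∈ C.K0, ∀ k' ∈ C.K0, (∃ g : G, g • k = k') →
    ∃ x ∈ Q, x • k = k' := by
  classical
  let φ : V × V → G := fun p => if h : ∃ g : G, g • p.1 = p.2 then Classical.choose h else 1
  refine ⟨φ '' ((C.K0 : Set V) ×ˢ (C.K0 : Set V)),
    (C.K0.finite_toSet.prod C.K0.finite_toSet).image _, ?_⟩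
  intro k hk k' hk' h
  refine ⟨φ (k, k'), ⟨(k, k'), ⟨hk, hk'⟩, rfl⟩, ?_⟩
  simp only [φ, dif_pos h]
  exact Classical.choose_spec h

/-- the part of `G` near a vertex is near a coset of a stabiliser -/
theorem coset : ∃ c : ℕ, ∀ (k : V) (g0 g : G), k ∈ C.K0 → g⁻¹ • g0 • k ∈ C.K0 →
    ∃ a : G, a • k = k ∧ C.lG (g⁻¹ * (g0 * a)) ≤ c := by
  obtain ⟨Q, hQ, hQ'⟩ := C.conn
  obtain ⟨c, hc⟩ := finite_bound hQ C.lG
  refine ⟨c, ?_⟩
  intro k g0 g hk hg
  obtain ⟨x, hx, hx'⟩ := hQ' k hk _ hg ⟨g⁻¹ * g0, by rw [mul_smul]⟩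
  refine ⟨g0⁻¹ * g * x, ?_, ?_⟩
  · rw [mul_smul, mul_smul, hx', smul_inv_smul, inv_smul_smul]
  · have : g⁻¹ * (g0 * (g0⁻¹ * g * x)) = x := by group
    rw [this]
    exact hc x hx

end Ctx

end Pool.Agent.Helper99
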