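import Mathlib

set_option autoImplicit false

/-! Word lengths, quasi-isometries, two-ended groups, splittings over two-ended subgroups, coarse
lines, groups which no coarse line separates, and rigid line trees. -/

namespace Pool.Agent.Helper99

/-- The word length of `g` with respect to `S`: the least length of a product of elements of `S` and
of their inverses which is equal to `g`. -/
noncomputable def wlen {G : Type} [Group G] (S : Finset G) (g : G) : ℕ :=
  sInf {n | ∃ l : List G, l.length = n ∧ (∀ x ∈ l, x ∈ S ∨ x⁻¹ ∈ S) ∧ l.prod = g}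

/-- `G` and `H` are finitely generated and quasi-isometric for the word metrics
`d(x, y) = wlen S (x⁻¹ * y)` of some finite generating sets. -/
def QuasiIsometric (G H : Type) [Group G] [Group H] : Prop :=
  ∃ (S : Finset G) (T : Finset H) (f : H → G) (K : ℕ),
    Subgroup.closure (S : Set G) = ⊤ ∧ Subgroup.closure (T : Set H) = ⊤ ∧
    (∀ x y : H, wlen S ((f x)⁻¹ * f y) ≤ K * wlen T (x⁻¹ * y) + K) ∧
    (∀ x y : H, wlen T (x⁻¹ * y) ≤ K * wlen S ((f x)⁻¹ * f y) + K) ∧
    (∀ g : G, ∃ x : H, wlen S (g⁻¹ * f x) ≤ K)

/-- A group is two-ended if it is infinite and virtually cyclic: some element of infinite order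
generates a subgroup of finite index. -/
def IsTwoEnded (K : Type) [Group K] : Prop :=
  ∃ g : K, orderOf g = 0 ∧ (Subgroup.zpowers g).FiniteIndex

/-- `G` splits over a two-ended subgroup: it acts on a simplicial tree by automorphisms, without
inversions, without a global fixed vertex, with one orbit of (unoriented) edges, and with two-ended
edge stabilisers. -/
def SplitsOverTwoEnded (G : Type) [Group G] : Prop :=
  ∃ (V : Type) (T : SimpleGraph V) (_ : MulAction G V), T.IsTree ∧
    (∀ (g : G) (u v : V), T.Adj u v → T.Adj (g • u) (g • v)) ∧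
    (∀ (g : G) (u v : V), T.Adj u v → ¬ (g • u = v ∧ g • v = u)) ∧
    (¬ ∃ v : V, ∀ g : G, g • v = v) ∧
    (∀ u v u' v' : V, T.Adj u v → T.Adj u' v' →
      ∃ g : G, (g • u = u' ∧ g • v = v') ∨ (g • u = v' ∧ g • v = u')) ∧
    (∀ u v : V, T.Adj u v →
      IsTwoEnded ↥(MulAction.stabilizer G u ⊓ MulAction.stabilizer G v))

/-- The closed `r`-neighbourhood of a subset `L` of `P` for the word metric of `S`. -/
def nbhd {P : Type} [Group P] (S : Finset P) (r : ℕ) (L : Set P) : Set P :=
  {x | ∃ y ∈ L, wlen S (x⁻¹ * y) ≤ r}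

/-- `L` is a coarse line (or a part of one) with control function `ρ`: it has a map to the integers
which distorts distances, in both directions, by at most `ρ`. -/
def IsCoarseLine {P : Type} [Group P] (S : Finset P) (ρ : ℕ → ℕ) (L : Set P) : Prop :=
  ∃ q : P → ℤ, ∀ x ∈ L, ∀ y ∈ L,
    (q x - q y).natAbs ≤ ρ (wlen S (x⁻¹ * y)) ∧ wlen S (x⁻¹ * y) ≤ ρ (q x - q y).natAbs

/-- The points `x` and `y` are joined by a path in the Cayley graph of `P` with respect to `S` which
avoids the set `Z`. -/
def JoinedOutside {P : Type} [Group P] (S : Finset P) (Z : Set P) (x y : P) : Prop :=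
  ∃ (n : ℕ) (c : ℕ → P), c 0 = x ∧ c n = y ∧ (∀ i ≤ n, c i ∉ Z) ∧
    ∀ i < n, (c i)⁻¹ * c (i + 1) ∈ S ∨ (c (i + 1))⁻¹ * c i ∈ S

/-- The finitely generated group `P` is not coarsely separated by the family of coarse lines: for
every control function `ρ` and every `r` there is `s` such that, for each coarse line `L` in `P` with
control `ρ`, there are points outside the `s`-neighbourhood of `L`, and any two of them are joined
outside the `r`-neighbourhood of `L`. -/
def LineInseparable (P : Type) [Group P] : Prop :=
  ∃ S : Finset P, Subgroup.closure (S : Set P) = ⊤ ∧ ∀ (ρ : ℕ → ℕ) (r : ℕ), ∃ s : ℕ,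
    ∀ L : Set P, IsCoarseLine S ρ L → (∃ x, x ∉ nbhd S s L) ∧
      ∀ x y, x ∉ nbhd S s L → y ∉ nbhd S s L → JoinedOutside S (nbhd S r L) x y

/-- The action of `G` on the tree `T` with vertex set `V` is a rigid line tree with set `B` of big
vertices (the other vertices are the line vertices): each edge joins a big vertex and a line vertex,
there are finitely many orbits of vertices, each line vertex has finitely many neighbours, and at
least two, and its stabiliser is two-ended, the stabilisers of two different line vertices meet in a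
finite group, the stabiliser of each big vertex is finitely generated and not coarsely separated by
coarse lines, and there is a line vertex. -/
structure RigidLineTree (G V : Type) [Group G] [MulAction G V] (T : SimpleGraph V) (B : Set V) :
    Prop where
  tree : T.IsTree
  smul_adj : ∀ (g : G) (u v : V), T.Adj u v → T.Adj (g • u) (g • v)
  smul_mem : ∀ (g : G) (v : V), v ∈ B → g • v ∈ B
  bip : ∀ u v : V, T.Adj u v → (u ∈ B ↔ v ∉ B)
  cofinite : ∃ K : Finset V, ∀ v : V, ∃ g : G, ∃ k ∈ K, g • k = v
  exists_line : ∃ l : V, l ∉ B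
  nbr_finite : ∀ l : V, l ∉ B → {v | T.Adj l v}.Finite
  nbr_two : ∀ l : V, l ∉ B → ∃ u v : V, u ≠ v ∧ T.Adj l u ∧ T.Adj l v
  line_two : ∀ l : V, l ∉ B → IsTwoEnded ↥(MulAction.stabilizer G l)
  line_meet : ∀ l : V, l ∉ B → ∀ l' : V, l' ∉ B → l ≠ l' →
    {g : G | g • l = l ∧ g • l' = l'}.Finite
  rigid : ∀ v : V, v ∈ B → LineInseparable ↥(MulAction.stabilizer G v)

end Pool.Agent.Helper99
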