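import Pool.Agent.Helper99_qis.Len

set_option autoImplicit false

/-! A group which is coarsely equivalent to the integers is two-ended. -/

namespace Pool.Agent.Helper99

section
variable {D : Type} [Group D] (ψ : D → ℤ)

/-- data of a coarse equivalence -/
structure CEq : Prop where
  h1 : ∀ n : ℕ, {t : D | ∃ x y, (ψ x - ψ y).natAbs ≤ n ∧ t = x⁻¹ * y}.Finite
  h2 : ∀ t : D, ∃ b : ℕ, ∀ x, (ψ (x * t) - ψ x).natAbs ≤ b
  h3 : ∃ m : ℕ, ∀ k : ℤ, ∃ x, (ψ x - k).natAbs ≤ m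

variable {ψ}

theorem finset_bound {D : Type} [Group D] {ψ : D → ℤ} (h : CEq ψ) (F : Set D) (hF : F.Finite) :
    ∃ b : ℕ, ∀ t ∈ F, ∀ x, (ψ (x * t) - ψ x).natAbs ≤ b := by
  induction F, hF using Set.Finite.induction_on with
  | empty => exact ⟨0, by simp⟩
  | @insert a s _ _ ih =>
    obtain ⟨b, hb⟩ := ih
    obtain ⟨c, hc⟩ := h.h2 a
    refine ⟨max b c, ?_⟩
    intro t ht x
    rcases Set.mem_insert_iff.1 ht with rfl | ht
    · exact (hc x).trans (le_max_right _ _)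
    · exact (hb t ht x).trans (le_max_left _ _)

/-- far points are sent far -/
theorem far (h : CEq ψ) (N : ℕ) : ∃ β : ℕ, ∀ a z : D, (ψ (a * z) - ψ a).natAbs ≤ N →
    (ψ z - ψ 1).natAbs ≤ β := by
  obtain ⟨β, hβ⟩ := finset_bound h _ (h.h1 N)
  refine ⟨β, ?_⟩
  intro a z haz
  have := hβ z ⟨a, a * z, by rw [← Int.natAbs_neg, neg_sub]; exact haz, by group⟩ 1
  rwa [one_mul] at this

theorem seq_sign (u : ℕ → ℤ) (ρ : ℕ) (h1 : ∀ n, (u (n + 1) - u n).natAbs ≤ ρ)
    (h2 : ∀ n, ρ < (u n).natAbs) : (∀ n, 0 < u n) ∨ (∀ n, u n < 0) := by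
  rcases lt_trichotomy (u 0) 0 with h | h | h
  · right
    intro n
    induction n with
    | zero => exact h
    | succ n ih =>
      have a1 := h1 n
      have a2 := h2 n
      have a3 := h2 (n + 1)
      omega
  · have := h2 0
    omega
  · left
    intro n
    induction n with
    | zero => exact h
    | succ n ih =>
      have a1 := h1 n
      have a2 := h2 n
      have a3 := h2 (n + 1)
      omega

/-- constant sign near each end -/
theorem sign_const (h : CEq ψ) : ∃ B : ℕ, 0 < B ∧ ∀ a : D,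
    ((∀ z, ψ 1 + B ≤ ψ z → ψ a < ψ (a * z)) ∨ (∀ z, ψ 1 + B ≤ ψ z → ψ (a * z) < ψ a)) ∧
    ((∀ z, ψ z ≤ ψ 1 - B → ψ a < ψ (a * z)) ∨ (∀ z, ψ z ≤ ψ 1 - B → ψ (a * z) < ψ a)) := by
  obtain ⟨m, hm⟩ := h.h3
  choose x hx using hm
  obtain ⟨ρ, hρ⟩ := finset_bound h _ (h.h1 (2 * m + 1))
  obtain ⟨β, hβ⟩ := far h ρ
  have step : ∀ a : D, ∀ k : ℤ, (ψ (a * x (k + 1)) - ψ (a * x k)).natAbs ≤ ρ := by
    intro a k
    have := hρ ((x k)⁻¹ * x (k + 1)) ⟨x k, x (k + 1), by
      have h1 := hx k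
      have h2 := hx (k + 1)
      omega, rfl⟩ (a * x k)
    rwa [mul_assoc, mul_inv_cancel_left] at this
  have near : ∀ a z : D, (ψ (a * z) - ψ (a * x (ψ z))).natAbs ≤ ρ := by
    intro a z
    have := hρ ((x (ψ z))⁻¹ * z) ⟨x (ψ z), z, by
      have h1 := hx (ψ z)
      omega, rfl⟩ (a * x (ψ z))
    rwa [mul_assoc, mul_inv_cancel_left] at this
  have big : ∀ a z : D, β < (ψ z - ψ 1).natAbs → ρ < (ψ (a * z) - ψ a).natAbs := by
    intro a z hz
    by_contra hc
    have := hβ a z (not_lt.1 hc)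
    omega
  refine ⟨β + m + 1, by omega, ?_⟩
  intro a
  constructor
  · have key := seq_sign (fun n : ℕ => ψ (a * x (ψ 1 + (β + m + 1 : ℕ) + n)) - ψ a) ρ (by
      intro n
      have := step a (ψ 1 + (β + m + 1 : ℕ) + n)
      have e : ψ 1 + ((β + m + 1 : ℕ) : ℤ) + ((n + 1 : ℕ) : ℤ) = ψ 1 + (β + m + 1 : ℕ) + n + 1 := by
        push_cast; ring
      simp only [e]
      have e2 : ∀ p q r : ℤ, (p - r) - (q - r) = p - q := by intro p q r; ring
      rw [e2]
      exact this) (by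
      intro n
      apply big
      have := hx (ψ 1 + (β + m + 1 : ℕ) + n)
      push_cast at this ⊢
      omega)
    rcases key with key | key
    · left
      intro z hz
      obtain ⟨n, hn⟩ : ∃ n : ℕ, ψ z = ψ 1 + (β + m + 1 : ℕ) + n := by
        refine ⟨(ψ z - (ψ 1 + (β + m + 1 : ℕ))).toNat, ?_⟩
        omega
      have k1 := key n
      simp only [← hn] at k1
      have k2 := near a z
      have k3 := big a z (by push_cast at hz ⊢; omega)
      omega
    · right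
      intro z hz
      obtain ⟨n, hn⟩ : ∃ n : ℕ, ψ z = ψ 1 + (β + m + 1 : ℕ) + n := by
        refine ⟨(ψ z - (ψ 1 + (β + m + 1 : ℕ))).toNat, ?_⟩
        omega
      have k1 := key n
      simp only [← hn] at k1
      have k2 := near a z
      have k3 := big a z (by push_cast at hz ⊢; omega)
      omega
  · have key := seq_sign (fun n : ℕ => ψ (a * x (ψ 1 - (β + m + 1 : ℕ) - n)) - ψ a) ρ (by
      intro n
      have := step a (ψ 1 - (β + m + 1 : ℕ) - n - 1)
      have e : ψ 1 - ((β + m + 1 : ℕ) : ℤ) - ((n + 1 : ℕ) : ℤ) = ψ 1 - (β + m + 1 : ℕ) - n - 1 := by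
        push_cast; ring
      simp only [e]
      have e2 : ∀ p q r : ℤ, (p - r) - (q - r) = p - q := by intro p q r; ring
      rw [e2]
      rw [sub_add_cancel] at this
      rw [← Int.natAbs_neg, neg_sub]
      exact this) (by
      intro n
      apply big
      have := hx (ψ 1 - (β + m + 1 : ℕ) - n)
      push_cast at this ⊢
      omega)
    rcases key with key | key
    · left
      intro z hz
      obtain ⟨n, hn⟩ : ∃ n : ℕ, ψ z = ψ 1 - (β + m + 1 : ℕ) - n := by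
        refine ⟨((ψ 1 - (β + m + 1 : ℕ)) - ψ z).toNat, ?_⟩
        omega
      have k1 := key n
      simp only [← hn] at k1
      have k2 := near a z
      have k3 := big a z (by push_cast at hz ⊢; omega)
      omega
    · right
      intro z hz
      obtain ⟨n, hn⟩ : ∃ n : ℕ, ψ z = ψ 1 - (β + m + 1 : ℕ) - n := by
        refine ⟨((ψ 1 - (β + m + 1 : ℕ)) - ψ z).toNat, ?_⟩
        omega
      have k1 := key n
      simp only [← hn] at k1
      have k2 := near a z
      have k3 := big a z (by push_cast at hz ⊢; omega)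
      omega

/-- the two ends are not sent to the same side -/
theorem sign_opp (h : CEq ψ) (B : ℕ) (a : D) :
    ¬ ((∀ z, ψ 1 + B ≤ ψ z → ψ a < ψ (a * z)) ∧ (∀ z, ψ z ≤ ψ 1 - B → ψ a < ψ (a * z))) ∧
    ¬ ((∀ z, ψ 1 + B ≤ ψ z → ψ (a * z) < ψ a) ∧ (∀ z, ψ z ≤ ψ 1 - B → ψ (a * z) < ψ a)) := by
  obtain ⟨m, hm⟩ := h.h3
  obtain ⟨ρ, hρ⟩ := finset_bound h _ (h.h1 B)
  have mid : ∀ z, ¬ ψ 1 + B ≤ ψ z → ¬ ψ z ≤ ψ 1 - B → (ψ (a * z) - ψ a).natAbs ≤ ρ := by
    intro z h1 h2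
    exact hρ z ⟨1, z, by omega, by simp⟩ a
  constructor
  · rintro ⟨h1, h2⟩
    obtain ⟨x, hx⟩ := hm (ψ a - ρ - m - 1)
    have e : a * (a⁻¹ * x) = x := by group
    by_cases c1 : ψ 1 + B ≤ ψ (a⁻¹ * x)
    · have := h1 _ c1
      rw [e] at this
      omega
    · by_cases c2 : ψ (a⁻¹ * x) ≤ ψ 1 - B
      · have := h2 _ c2
        rw [e] at this
        omega
      · have := mid _ c1 c2
        rw [e] at this
        omega
  · rintro ⟨h1, h2⟩
    obtain ⟨x, hx⟩ := hm (ψ a + ρ + m + 1)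
    have e : a * (a⁻¹ * x) = x := by group
    by_cases c1 : ψ 1 + B ≤ ψ (a⁻¹ * x)
    · have := h1 _ c1
      rw [e] at this
      omega
    · by_cases c2 : ψ (a⁻¹ * x) ≤ ψ 1 - B
      · have := h2 _ c2
        rw [e] at this
        omega
      · have := mid _ c1 c2
        rw [e] at this
        omega

/-- `a` sends the positive end to the positive end -/
def Pos (ψ : D → ℤ) (a : D) : Prop := ∀ N : ℤ, ∃ M : ℤ, ∀ z, M ≤ ψ z → N ≤ ψ (a * z)
def Neg (ψ : D → ℤ) (a : D) : Prop := ∀ N : ℤ, ∃ M : ℤ, ∀ z, M ≤ ψ z → ψ (a * z) ≤ N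
def Neg' (ψ : D → ℤ) (a : D) : Prop := ∀ N : ℤ, ∃ M : ℤ, ∀ z, ψ z ≤ M → N ≤ ψ (a * z)

theorem pos_of (h : CEq ψ) (B : ℕ) (a : D) (h1 : ∀ z, ψ 1 + B ≤ ψ z → ψ a < ψ (a * z)) :
    Pos ψ a := by
  intro N
  obtain ⟨β, hβ⟩ := far h (N - ψ a).natAbs
  refine ⟨ψ 1 + B + β + 1, ?_⟩
  intro z hz
  have k1 := h1 z (by omega)
  by_contra hc
  have := hβ a z (by omega)
  omega

theorem neg_of (h : CEq ψ) (B : ℕ) (a : D) (h1 : ∀ z, ψ 1 + B ≤ ψ z → ψ (a * z) < ψ a) :
    Neg ψ a := by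
  intro N
  obtain ⟨β, hβ⟩ := far h (N - ψ a).natAbs
  refine ⟨ψ 1 + B + β + 1, ?_⟩
  intro z hz
  have k1 := h1 z (by omega)
  by_contra hc
  have := hβ a z (by omega)
  omega

theorem neg'_of (h : CEq ψ) (B : ℕ) (a : D) (h1 : ∀ z, ψ z ≤ ψ 1 - B → ψ a < ψ (a * z)) :
    Neg' ψ a := by
  intro N
  obtain ⟨β, hβ⟩ := far h (N - ψ a).natAbs
  refine ⟨ψ 1 - B - β - 1, ?_⟩
  intro z hz
  have k1 := h1 z (by omega)
  by_contra hc
  have := hβ a z (by omega)
  omega

theorem exists_large (h : CEq ψ) (N : ℤ) : ∃ x, N ≤ ψ x := by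
  obtain ⟨m, hm⟩ := h.h3
  obtain ⟨x, hx⟩ := hm (N + m)
  exact ⟨x, by omega⟩

theorem not_pos_neg (h : CEq ψ) (a : D) (h1 : Pos ψ a) (h2 : Neg ψ a) : False := by
  obtain ⟨M1, hM1⟩ := h1 1
  obtain ⟨M2, hM2⟩ := h2 0
  obtain ⟨x, hx⟩ := exists_large h (max M1 M2)
  have a1 := hM1 x ((le_max_left _ _).trans hx)
  have a2 := hM2 x ((le_max_right _ _).trans hx)
  omega

/-- **A group coarsely equivalent to the integers is two-ended.** -/
theorem two_ended_of_ceq (h : CEq ψ) : IsTwoEnded D := by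
  obtain ⟨B, hB0, hB⟩ := sign_const h
  -- the dichotomy
  have dich : ∀ a : D, ((∀ z, ψ 1 + B ≤ ψ z → ψ a < ψ (a * z)) ∧ Pos ψ a) ∨ (Neg ψ a ∧ Neg' ψ a) := by
    intro a
    obtain ⟨k1, k2⟩ := hB a
    obtain ⟨o1, o2⟩ := sign_opp h B a
    rcases k1 with k1 | k1
    · exact Or.inl ⟨k1, pos_of h B a k1⟩
    · right
      refine ⟨neg_of h B a k1, ?_⟩
      rcases k2 with k2 | k2
      · exact neg'_of h B a k2
      · exact absurd ⟨k1, k2⟩ o2
  have strong : ∀ a : D, Pos ψ a → ∀ z, ψ 1 + B ≤ ψ z → ψ a < ψ (a * z) := by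
    intro a ha
    rcases dich a with k | k
    · exact k.1
    · exact absurd k.1 (fun hn => not_pos_neg h a ha hn)
  have pmul : ∀ a b : D, Pos ψ a → Pos ψ b → Pos ψ (a * b) := by
    intro a b ha hb N
    obtain ⟨M, hM⟩ := ha N
    obtain ⟨M', hM'⟩ := hb M
    refine ⟨M', fun z hz => ?_⟩
    rw [mul_assoc]
    exact hM _ (hM' z hz)
  have pone : Pos ψ (1 : D) := fun N => ⟨N, fun z hz => by rwa [one_mul]⟩
  have pinv : ∀ a : D, Pos ψ a → Pos ψ a⁻¹ := by
    intro a ha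
    rcases dich a⁻¹ with k | k
    · exact k.2
    · exfalso
      -- a⁻¹ sends + to -, and - to +; a * a⁻¹ = 1
      rcases dich a with k' | k'
      · -- look at points z with ψ (a⁻¹ z) large
        obtain ⟨M1, hM1⟩ := ha 0
        obtain ⟨M2, hM2⟩ := k.2 M1
        obtain ⟨m, hm⟩ := h.h3
        obtain ⟨x, hx⟩ := hm (min M2 (-1) - m)
        have a1 := hM2 x (by have := min_le_left M2 (-1); omega)
        have a2 := hM1 _ a1
        rw [mul_inv_cancel_left] at a2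
        have := min_le_right M2 (-1)
        omega
      · exact not_pos_neg h a ha k'.1
  -- an element which translates
  obtain ⟨g, hg1, hg2⟩ : ∃ g : D, Pos ψ g ∧ ψ 1 + B ≤ ψ g := by
    by_contra hc
    have hc' : ∀ g, ψ 1 + B ≤ ψ g → Neg ψ g ∧ Neg' ψ g := by
      intro g hg
      rcases dich g with k | k
      · exact absurd ⟨g, k.2, hg⟩ hc
      · exact k
    obtain ⟨a, ha⟩ := exists_large h (ψ 1 + B)
    have ha1 := hc' a ha
    have ha2 : Neg ψ a⁻¹ := by
      rcases dich a⁻¹ with k | k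
      · have := pinv _ k.2
        rw [inv_inv] at this
        exact absurd ha1.1 (fun hn => not_pos_neg h a this hn)
      · exact k.1
    obtain ⟨c, hcc⟩ := h.h2 a⁻¹
    obtain ⟨b, hb⟩ := exists_large h (ψ 1 + B + c)
    have hb1 := hc' b (by omega)
    have hg := hc' (b * a⁻¹) (by have := hcc b; omega)
    have hpos : Pos ψ (b * a⁻¹) := by
      intro N
      obtain ⟨M, hM⟩ := hb1.2 N
      obtain ⟨M', hM'⟩ := ha2 M
      refine ⟨M', fun z hz => ?_⟩
      rw [mul_assoc]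
      exact hM _ (hM' z hz)
    exact not_pos_neg h _ hpos hg.1
  have ppow : ∀ n : ℕ, Pos ψ (g ^ n) := by
    intro n
    induction n with
    | zero => rw [pow_zero]; exact pone
    | succ n ih => rw [pow_succ]; exact pmul _ _ ih hg1
  have pzpow : ∀ n : ℤ, Pos ψ (g ^ n) := by
    intro n
    obtain ⟨k, rfl | rfl⟩ := n.eq_nat_or_neg
    · rw [zpow_natCast]; exact ppow k
    · rw [zpow_neg, zpow_natCast]; exact pinv _ (ppow k)
  have mono : ∀ n : ℤ, ψ (g ^ n) < ψ (g ^ (n + 1)) := by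
    intro n
    rw [zpow_add_one]
    exact strong _ (pzpow n) g hg2
  have smono : StrictMono (fun n : ℤ => ψ (g ^ n)) := strictMono_int_of_lt_succ mono
  refine ⟨g, ?_, ?_⟩
  · rw [orderOf_eq_zero_iff']
    intro n hn h1
    have := smono (show (0 : ℤ) < (n : ℤ) by exact_mod_cast hn)
    simp only [zpow_zero, zpow_natCast, h1, lt_self_iff_false] at this
  · obtain ⟨c, hcc⟩ := h.h2 g
    have hF := h.h1 c
    have lin : ∀ n : ℤ, ∀ k : ℕ, ψ (g ^ n) + k ≤ ψ (g ^ (n + k)) := by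
      intro n k
      induction k with
      | zero => simp
      | succ k ih =>
        have := mono (n + k)
        push_cast at this ⊢
        rw [← add_assoc n]
        omega
    have cover : ∀ x : D, ∃ n : ℤ, (g ^ n)⁻¹ * x ∈
        {t : D | ∃ x y, (ψ x - ψ y).natAbs ≤ c ∧ t = x⁻¹ * y} := by
      intro x
      obtain ⟨n, hn1, hn2⟩ : ∃ n : ℤ, ψ (g ^ n) ≤ ψ x ∧ ∀ z : ℤ, ψ (g ^ z) ≤ ψ x → z ≤ n := by
        apply Int.exists_greatest_of_bdd
        · refine ⟨(ψ x - ψ 1).natAbs, ?_⟩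
          intro z hz
          by_contra hlt
          have hlt := not_le.1 hlt
          have k1 := lin 0 z.toNat
          rw [zpow_zero] at k1
          have e : (0 : ℤ) + (z.toNat : ℤ) = z := by omega
          rw [e] at k1
          omega
        · refine ⟨- (ψ x - ψ 1).natAbs, ?_⟩
          have k1 := lin (- (ψ x - ψ 1).natAbs) (ψ x - ψ 1).natAbs
          rw [neg_add_cancel, zpow_zero] at k1
          omega
      refine ⟨n, g ^ n, x, ?_, rfl⟩
      have k1 : ψ x < ψ (g ^ (n + 1)) := by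
        by_contra hc
        have := hn2 _ (not_lt.1 hc)
        omega
      have k2 := hcc (g ^ n)
      rw [zpow_add_one] at k1
      omega
    have : Finite (D ⧸ Subgroup.zpowers g) := by
      let F := {t : D | ∃ x y, (ψ x - ψ y).natAbs ≤ c ∧ t = x⁻¹ * y}
      have : Finite F := hF
      apply Finite.of_surjective (fun t : F => (QuotientGroup.mk (t : D)⁻¹ : D ⧸ Subgroup.zpowers g))
      intro q
      obtain ⟨y, rfl⟩ := QuotientGroup.mk_surjective q
      obtain ⟨n, hn⟩ := cover y⁻¹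
      refine ⟨⟨_, hn⟩, ?_⟩
      rw [QuotientGroup.eq]
      refine ⟨-n, ?_⟩
      simp only [mul_inv_rev, inv_inv, zpow_neg]
      group
    exact Subgroup.finiteIndex_of_finite_quotient

end

end Pool.Agent.Helper99
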