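import Pool.Agent.Helper99_qis.Act
import Pool.Agent.Helper99_qis.LineGrp
import Pool.Agent.Helper99_qis.Collapse

set_option autoImplicit false

/-! The edge stabilisers are two-ended, and `H` splits. -/

namespace Pool.Agent.Helper99

open Pool.Agent.H895R2.SB

namespace Ctx

variable {G H V : Type} [Group G] [Group H] [MulAction G V] (C : Ctx G H V)

/-- the stabiliser in `H` of an edge is coarsely a line -/
theorem edge_two (l v : V) (hl : l ∉ C.B) (hlv : C.T.Adj l v) (D : Subgroup H)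
    (hD : ∀ d : H, d ∈ D ↔ C.act d l = l ∧ C.act d v = v) : IsTwoEnded ↥D := by
  classical
  obtain ⟨y0, hy0⟩ := C.Y_nonempty l
  obtain ⟨κ, hκ⟩ := C.nbr_near
  obtain ⟨ρ, hρm, hρ⟩ := C.coord C.sc
  obtain ⟨q, hq1, hq2⟩ := hρ l hl
  have hmem : ∀ d : ↥D, (d : H) * y0 ∈ C.N C.sc (C.Y l) := by
    intro d
    have h1 := (C.act_spec (d : H) l).2 y0 hy0
    rwa [((hD d).1 d.2).1] at h1
  -- finitely many pairs near the base point
  have hF : (({w | y0 ∈ C.N C.sc (C.Y w)} : Set V) ×ˢ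
      ({w | y0 ∈ C.N (κ + C.sc) (C.Y w)} : Set V)).Finite :=
    (C.fin_near y0 _).prod (C.fin_near y0 _)
  let lab : H → V × V := fun y => (C.act (y0 * y⁻¹) l, C.act (y0 * y⁻¹) v)
  have hlab : ∀ y ∈ C.Y l, lab y ∈ (({w | y0 ∈ C.N C.sc (C.Y w)} : Set V) ×ˢ
      ({w | y0 ∈ C.N (κ + C.sc) (C.Y w)} : Set V)) := by
    intro y hy
    constructor
    · have := (C.act_spec (y0 * y⁻¹) l).2 y hy
      rwa [inv_mul_cancel_right] at this
    · obtain ⟨z, hz, hz'⟩ := hκ l v hl hlv hy
      have h1 := (C.act_spec (y0 * y⁻¹) v).2 z hz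
      have h2 : C.lH (y0⁻¹ * ((y0 * y⁻¹) * z)) ≤ κ := by
        have e : y0⁻¹ * ((y0 * y⁻¹) * z) = y⁻¹ * z := by group
        rw [e]; exact hz'
      exact C.N_trans h1 h2
  -- representatives of the labels
  let rep : V × V → H := fun p => if h : ∃ y ∈ C.Y l, lab y = p then Classical.choose h else 1
  obtain ⟨M, hM⟩ := finite_bound hF (fun p => C.lH (y0⁻¹ * rep p))
  have hrep : ∀ y ∈ C.Y l, ∃ d : ↥D, C.lH (((d : H) * y0)⁻¹ * y) ≤ M := by
    intro y hy
    have hex : ∃ y' ∈ C.Y l, lab y' = lab y := ⟨y, hy, rfl⟩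
    have hr : rep (lab y) = Classical.choose hex := by simp only [rep, dif_pos hex]
    obtain ⟨hr1, hr2⟩ := Classical.choose_spec hex
    rw [← hr] at hr1 hr2
    obtain ⟨e1, e2⟩ := Prod.mk.inj hr2
    have hd : y * (rep (lab y))⁻¹ ∈ D := by
      have e : y * (rep (lab y))⁻¹ = (y0 * y⁻¹)⁻¹ * (y0 * (rep (lab y))⁻¹) := by group
      have hinv : ∀ (h : H) (w : V), C.act h⁻¹ (C.act h w) = w := by
        intro h w
        rw [← C.act_mul, inv_mul_cancel, C.act_one]
      rw [hD, e, C.act_mul (y0 * y⁻¹)⁻¹, C.act_mul (y0 * y⁻¹)⁻¹, e1, e2, hinv, hinv]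
      exact ⟨rfl, rfl⟩
    refine ⟨⟨_, hd⟩, ?_⟩
    have e : (y * (rep (lab y))⁻¹ * y0)⁻¹ * y = y0⁻¹ * rep (lab y) := by group
    show C.lH ((y * (rep (lab y))⁻¹ * y0)⁻¹ * y) ≤ M
    rw [e]
    exact hM _ (hlab y hy)
  apply two_ended_of_ceq (ψ := fun d : ↥D => q ((d : H) * y0))
  refine ⟨?_, ?_, ?_⟩
  · intro n
    have hfin : {t : ↥D | C.lH (y0⁻¹ * ((t : H) * y0)) ≤ ρ n}.Finite := by
      have hinj : Function.Injective (fun t : ↥D => y0⁻¹ * ((t : H) * y0)) := by
        intro a b hab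
        apply Subtype.ext
        have hab' : y0⁻¹ * ((a : H) * y0) = y0⁻¹ * ((b : H) * y0) := hab
        exact mul_right_cancel (mul_left_cancel hab')
      apply Set.Finite.of_finite_image _ hinj.injOn
      apply (C.hH.fin (ρ n)).subset
      rintro _ ⟨t, ht, rfl⟩
      exact ht
    apply hfin.subset
    rintro t ⟨x, y, hxy, rfl⟩
    have h1 := (hq1 _ (hmem x) _ (hmem y)).2
    have e : y0⁻¹ * (((x⁻¹ * y : ↥D) : H) * y0) = ((x : H) * y0)⁻¹ * ((y : H) * y0) := by
      push_cast; group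
    show C.lH (y0⁻¹ * (((x⁻¹ * y : ↥D) : H) * y0)) ≤ ρ n
    rw [e]
    exact h1.trans (hρm hxy)
  · intro t
    refine ⟨ρ (C.lH (((t : H) * y0)⁻¹ * y0)), ?_⟩
    intro x
    have h1 := (hq1 _ (hmem (x * t)) _ (hmem x)).1
    have e : (((x * t : ↥D) : H) * y0)⁻¹ * ((x : H) * y0) = ((t : H) * y0)⁻¹ * y0 := by
      push_cast; group
    rw [e] at h1
    exact h1
  · refine ⟨ρ M + ρ 0, ?_⟩
    intro k
    obtain ⟨y, hy, hy'⟩ := hq2 k
    obtain ⟨d, hd⟩ := hrep y hy
    refine ⟨d, ?_⟩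
    have h1 := (hq1 _ (hmem d) _ (C.N_self hy)).1
    have h2 := h1.trans (hρm hd)
    show (q ((d : H) * y0) - k).natAbs ≤ ρ M + ρ 0
    omega

/-- every vertex is moved into every component of the complement of a line vertex -/
theorem deep (l u : V) (hl : l ∉ C.B) (hlu : C.T.Adj l u) (z : V) :
    ∃ h : H, ¬ Sep C.T l (C.act h z) u := by
  obtain ⟨κ, hκ⟩ := C.cross C.sc
  obtain ⟨y, hy, hy'⟩ := C.not_line κ 1 u l (C.nbr_big hl hlu) hl
  rw [one_mul] at hy'
  obtain ⟨x, hx⟩ := C.Y_nonempty z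
  refine ⟨y * x⁻¹, fun hs => hy' ?_⟩
  have h1 := (C.act_spec (y * x⁻¹) z).2 x hx
  rw [inv_mul_cancel_right] at h1
  obtain ⟨z', hz', hz''⟩ := h1
  exact hκ y z' u _ l hy hz' hz'' hs.symm

include C in
theorem splits : SplitsOverTwoEnded H := by
  classical
  let _ : MulAction H V := C.mulAct
  have hsm : ∀ (h : H) (v : V), h • v = C.act h v := fun h v => rfl
  have hT := C.R.tree
  obtain ⟨l, hl⟩ := C.R.exists_line
  obtain ⟨u, u', huu, hu, hu'⟩ := C.R.nbr_two l hl
  apply splits_of_action (T := C.T) (a := l) (b := u) hT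
  · intro g v w hvw
    exact C.act_adj g hvw
  · intro g v w hvw
    rintro ⟨h1, _⟩
    rw [hsm] at h1
    have h2 := (C.act_spec g v).1
    rw [h1] at h2
    have h3 := C.R.bip v w hvw
    tauto
  · intro v w hvw
    by_cases hv : v ∈ C.B
    · apply C.edge_two w v (C.nbr_line hv hvw) hvw.symm
      intro d
      simp only [Subgroup.mem_inf, MulAction.mem_stabilizer_iff, hsm]
      tauto
    · apply C.edge_two v w hv hvw
      intro d
      simp only [Subgroup.mem_inf, MulAction.mem_stabilizer_iff, hsm]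
  · exact hu
  · intro z
    constructor
    · -- the side of l: use the other neighbour
      obtain ⟨h, hh⟩ := C.deep l u' hl hu' z
      refine ⟨h, ?_⟩
      rw [hsm]
      have hsep : Sep C.T l u' u := by
        unfold Sep
        have d1 := SimpleGraph.dist_eq_one_iff_adj.2 hu
        have d2 := SimpleGraph.dist_eq_one_iff_adj.2 hu'.symm
        rcases adj_dist hT u' hu with h1 | h1
        · exfalso
          have : C.T.dist u' u = 0 := by omega
          exact huu ((hT.connected.dist_eq_zero_iff).1 this).symm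
        · omega
      rcases hsep.or hT (C.act h z) with h1 | h1
      · exact absurd h1.symm hh
      · unfold Sep at h1
        have d1 := SimpleGraph.dist_eq_one_iff_adj.2 hu
        omega
    · obtain ⟨h, hh⟩ := C.deep l u hl hu z
      refine ⟨h, ?_⟩
      rw [hsm]
      rcases adj_dist hT (C.act h z) hu with h1 | h1
      · omega
      · exfalso
        apply hh
        unfold Sep
        have d1 := SimpleGraph.dist_eq_one_iff_adj.2 hu
        omega

end Ctx

/-- **Main theorem.** -/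
theorem main {G H V : Type} [Group G] [Group H] [MulAction G V] (T : SimpleGraph V) (B : Set V)
    (hR : RigidLineTree G V T B) (hq : QuasiIsometric G H) : SplitsOverTwoEnded H := by
  obtain ⟨S, S', f, K, hS, hS', h1, h2, h3⟩ := hq
  obtain ⟨K0, hK0⟩ := hR.cofinite
  choose sg hsg using h3
  let C : Ctx G H V :=
    { T := T, B := B, R := hR, lG := wlen S, lH := wlen S', hG := isLen_wlen S hS,
      hH := isLen_wlen S' hS', f := f, K := K, hf1 := h1, hf2 := h2, sg := sg, hsg := hsg,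
      K0 := K0, hK0 := hK0 }
  exact C.splits

end Pool.Agent.Helper99
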