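import Pool.Agent.Helper99_qis.Defs

set_option autoImplicit false

/-! Basic facts on word lengths. -/

namespace Pool.Agent.Helper99

/-- The properties of a word length which are used. -/
structure IsLen {G : Type} [Group G] (ℓ : G → ℕ) : Prop where
  one : ℓ 1 = 0
  inv : ∀ g, ℓ g⁻¹ = ℓ g
  mul : ∀ g h, ℓ (g * h) ≤ ℓ g + ℓ h
  fin : ∀ n, {g | ℓ g ≤ n}.Finite

section
variable {G : Type} [Group G] (S : Finset G)

theorem exists_word (hS : Subgroup.closure (S : Set G) = ⊤) (g : G) :
    ∃ l : List G, (∀ x ∈ l, x ∈ S ∨ x⁻¹ ∈ S) ∧ l.prod = g := by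
  have hg : g ∈ Subgroup.closure (S : Set G) := by rw [hS]; trivial
  induction hg using Subgroup.closure_induction with
  | mem x hx => exact ⟨[x], by simpa using Or.inl hx, by simp⟩
  | one => exact ⟨[], by simp, by simp⟩
  | mul x y _ _ hx hy =>
    obtain ⟨l, hl, rfl⟩ := hx
    obtain ⟨l', hl', rfl⟩ := hy
    refine ⟨l ++ l', ?_, by simp⟩
    intro x hx
    rcases List.mem_append.1 hx with h | h
    · exact hl x h
    · exact hl' x h
  | inv x _ hx =>
    obtain ⟨l, hl, rfl⟩ := hx
    refine ⟨(l.map (fun x => x⁻¹)).reverse, ?_, by rw [List.prod_inv_reverse]⟩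
    intro x hx
    simp only [List.mem_reverse, List.mem_map] at hx
    obtain ⟨y, hy, rfl⟩ := hx
    rcases hl y hy with h | h
    · right; simpa using h
    · left; exact h

theorem wlen_spec (hS : Subgroup.closure (S : Set G) = ⊤) (g : G) :
    ∃ l : List G, l.length = wlen S g ∧ (∀ x ∈ l, x ∈ S ∨ x⁻¹ ∈ S) ∧ l.prod = g := by
  obtain ⟨l, hl, hl'⟩ := exists_word S hS g
  have : {n | ∃ l : List G, l.length = n ∧ (∀ x ∈ l, x ∈ S ∨ x⁻¹ ∈ S) ∧ l.prod = g}.Nonempty :=
    ⟨l.length, l, rfl, hl, hl'⟩
  exact Nat.sInf_mem this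

theorem wlen_le {g : G} (l : List G) (hl : ∀ x ∈ l, x ∈ S ∨ x⁻¹ ∈ S) (h : l.prod = g) :
    wlen S g ≤ l.length :=
  Nat.sInf_le ⟨l, rfl, hl, h⟩

theorem isLen_wlen (hS : Subgroup.closure (S : Set G) = ⊤) : IsLen (wlen S) := by
  classical
  have hinv : ∀ g, wlen S g⁻¹ ≤ wlen S g := by
    intro g
    obtain ⟨l, h1, h2, h3⟩ := wlen_spec S hS g
    rw [← h1]
    have : (l.map (fun x => x⁻¹)).reverse.length = l.length := by simp
    rw [← this]
    apply wlen_le
    · intro x hx
      simp only [List.mem_reverse, List.mem_map] at hx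
      obtain ⟨y, hy, rfl⟩ := hx
      rcases h2 y hy with h | h
      · right; simpa using h
      · left; exact h
    · rw [← h3, List.prod_inv_reverse]
  refine ⟨?_, ?_, ?_, ?_⟩
  · have := wlen_le S (g := 1) [] (by simp) (by simp)
    simpa using this
  · intro g
    apply le_antisymm (hinv g)
    have := hinv g⁻¹
    rwa [inv_inv] at this
  · intro g h
    obtain ⟨l, h1, h2, h3⟩ := wlen_spec S hS g
    obtain ⟨l', h1', h2', h3'⟩ := wlen_spec S hS h
    rw [← h1, ← h1', ← List.length_append]
    apply wlen_le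
    · intro x hx
      rcases List.mem_append.1 hx with h | h
      · exact h2 x h
      · exact h2' x h
    · rw [List.prod_append, h3, h3']
  · intro n
    induction n with
    | zero =>
      apply (Set.finite_singleton (1 : G)).subset
      intro g hg
      obtain ⟨l, h1, _, h3⟩ := wlen_spec S hS g
      have : l.length = 0 := by
        have : wlen S g ≤ 0 := hg
        omega
      rw [List.length_eq_zero_iff] at this
      subst this
      simpa using h3.symm
    | succ n ih =>
      have hfin : ((S : Set G) ∪ (S : Set G)⁻¹).Finite := S.finite_toSet.union (S.finite_toSet.inv)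
      apply (((Set.finite_singleton (1 : G))).union (hfin.mul ih)).subset
      intro g hg
      obtain ⟨l, h1, h2, h3⟩ := wlen_spec S hS g
      have hlen : l.length ≤ n + 1 := by
        have : wlen S g ≤ n + 1 := hg
        omega
      cases l with
      | nil => left; simpa using h3.symm
      | cons a l =>
        right
        rw [List.prod_cons] at h3
        refine Set.mem_mul.2 ⟨a, ?_, l.prod, ?_, h3⟩
        · rcases h2 a (by simp) with h | h
          · left; exact h
          · right; simpa using h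
        · have : wlen S l.prod ≤ l.length := wlen_le S l (fun x hx => h2 x (by simp [hx])) rfl
          simp only [List.length_cons] at hlen
          show wlen S l.prod ≤ n
          omega

theorem wlen_gen_le {s : G} (h : s ∈ S ∨ s⁻¹ ∈ S) : wlen S s ≤ 1 := by
  have := wlen_le S (g := s) [s] (by simpa using h) (by simp)
  simpa using this

end

namespace IsLen

variable {G : Type} [Group G] {ℓ : G → ℕ} (h : IsLen ℓ)
include h

theorem self (x : G) : ℓ (x⁻¹ * x) = 0 := by rw [inv_mul_cancel, h.one]

theorem comm (x y : G) : ℓ (x⁻¹ * y) = ℓ (y⁻¹ * x) := by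
  rw [← h.inv (x⁻¹ * y), mul_inv_rev, inv_inv]

theorem tri (x y z : G) : ℓ (x⁻¹ * z) ≤ ℓ (x⁻¹ * y) + ℓ (y⁻¹ * z) := by
  have := h.mul (x⁻¹ * y) (y⁻¹ * z)
  rwa [mul_assoc, mul_inv_cancel_left] at this

theorem left (g x y : G) : ℓ ((g * x)⁻¹ * (g * y)) = ℓ (x⁻¹ * y) := by
  congr 1
  group

end IsLen

end Pool.Agent.Helper99
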