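import Pool.Agent.Helper99_qis.Ctx

set_option autoImplicit false

/-! Coordinates on the lines. -/

namespace Pool.Agent.Helper99

open Pool.Agent.H895R2.SB

theorem len_zpow {G : Type} [Group G] {ℓ : G → ℕ} (h : IsLen ℓ) (t : G) (m : ℤ) :
    ℓ (t ^ m) ≤ m.natAbs * ℓ t := by
  have hp : ∀ n : ℕ, ℓ (t ^ n) ≤ n * ℓ t := by
    intro n
    induction n with
    | zero => rw [pow_zero, h.one]; omega
    | succ n ih =>
      rw [pow_succ]
      have := h.mul (t ^ n) t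
      have e : (n + 1) * ℓ t = n * ℓ t + ℓ t := by ring
      omega
  obtain ⟨n, rfl | rfl⟩ := m.eq_nat_or_neg
  · rw [zpow_natCast, Int.natAbs_natCast]; exact hp n
  · rw [zpow_neg, zpow_natCast, h.inv, Int.natAbs_neg, Int.natAbs_natCast]; exact hp n

namespace Ctx

variable {G H V : Type} [Group G] [Group H] [MulAction G V] (C : Ctx G H V)

theorem line_gen (k : V) (hk : k ∉ C.B) : ∃ (t : G) (W : Set G), t • k = k ∧
    Function.Injective (fun m : ℤ => t ^ m) ∧ W.Finite ∧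
    ∀ a : G, a • k = k → ∃ n : ℤ, ∃ w ∈ W, a = t ^ n * w := by
  obtain ⟨t, ht, hfi⟩ := C.R.line_two k hk
  have hq : Finite (↥(MulAction.stabilizer G k) ⧸ Subgroup.zpowers t) :=
    Subgroup.finite_quotient_of_finiteIndex
  refine ⟨(t : G), Set.range (fun q : (↥(MulAction.stabilizer G k) ⧸ Subgroup.zpowers t) =>
    ((q.out : ↥(MulAction.stabilizer G k)) : G)⁻¹), ?_, ?_, Set.finite_range _, ?_⟩
  · exact t.2
  · have h1 : Function.Injective (fun m : ℤ => t ^ m) := by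
      have : ¬ IsOfFinOrder t := by rwa [← orderOf_eq_zero_iff]
      exact injective_zpow_iff_not_isOfFinOrder.2 this
    intro m n hmn
    apply h1
    apply Subtype.ext
    simpa using hmn
  · intro a ha
    let a' : ↥(MulAction.stabilizer G k) := ⟨a, ha⟩
    have h1 : (QuotientGroup.mk (QuotientGroup.mk a'⁻¹ : ↥(MulAction.stabilizer G k) ⧸
        Subgroup.zpowers t).out : ↥(MulAction.stabilizer G k) ⧸ Subgroup.zpowers t) =
        QuotientGroup.mk a'⁻¹ := QuotientGroup.out_eq' _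
    rw [QuotientGroup.eq] at h1
    obtain ⟨n, hn⟩ := h1
    refine ⟨-n, _, ⟨(QuotientGroup.mk a'⁻¹ : ↥(MulAction.stabilizer G k) ⧸ Subgroup.zpowers t),
      rfl⟩, ?_⟩
    have h2 : (t : G) ^ n = ((QuotientGroup.mk a'⁻¹ : ↥(MulAction.stabilizer G k) ⧸
        Subgroup.zpowers t).out : G)⁻¹ * a⁻¹ := by
      have := congrArg (fun x : ↥(MulAction.stabilizer G k) => (x : G)) hn
      simpa using this
    rw [zpow_neg, h2]
    group

theorem proper_gen (t : G) (ht : Function.Injective (fun m : ℤ => t ^ m)) :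
    ∀ N : ℕ, ∃ M : ℕ, ∀ m : ℤ, C.lG (t ^ m) ≤ N → m.natAbs ≤ M := by
  intro N
  have : {m : ℤ | C.lG (t ^ m) ≤ N}.Finite := by
    apply Set.Finite.of_finite_image _ ht.injOn
    apply (C.hG.fin N).subset
    rintro _ ⟨m, hm, rfl⟩
    exact hm
  obtain ⟨M, hM⟩ := finite_bound this Int.natAbs
  exact ⟨M, hM⟩

/-- coordinates, for one representative -/
theorem coord_one (r : ℕ) (k : V) (hk : k ∈ C.K0) (hkB : k ∉ C.B) : ∃ ρ : ℕ → ℕ, ∀ g1 : G,
    ∃ q : H → ℤ, (∀ y ∈ C.N r (C.Y (g1 • k)), ∀ y' ∈ C.N r (C.Y (g1 • k)),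
      (q y - q y').natAbs ≤ ρ (C.lH (y⁻¹ * y')) ∧ C.lH (y⁻¹ * y') ≤ ρ (q y - q y').natAbs) ∧
      ∀ n : ℤ, ∃ y ∈ C.Y (g1 • k), (q y - n).natAbs ≤ ρ 0 := by
  classical
  obtain ⟨t, W, ht1, ht2, hW, hW'⟩ := C.line_gen k hkB
  obtain ⟨c, hc⟩ := C.coset
  obtain ⟨cW, hcW⟩ := finite_bound hW C.lG
  choose M hM using C.proper_gen t ht2
  obtain ⟨c2, hc2⟩ : ∃ c2, c2 = (C.K * r + C.K) + C.K + c + cW := ⟨_, rfl⟩
  have near : ∀ g1 : G, ∀ y ∈ C.N r (C.Y (g1 • k)), ∃ n : ℤ,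
      C.lG ((C.f y)⁻¹ * (g1 * t ^ n)) ≤ c2 := by
    rintro g1 y ⟨z, ⟨g, hg1, hg2⟩, hz⟩
    obtain ⟨a, ha1, ha2⟩ := hc k g1 g hk hg1
    obtain ⟨n, w, hw, rfl⟩ := hW' a ha1
    refine ⟨n, ?_⟩
    have a1 := C.hG.tri (C.f y) (C.f z) (g1 * t ^ n)
    have a2 := C.hG.tri (C.f z) g (g1 * t ^ n)
    have a3 := C.hG.tri g (g1 * (t ^ n * w)) (g1 * t ^ n)
    have a4 := C.hf1 y z
    have a5 := Nat.mul_le_mul_left C.K hz
    have a6 : C.lG ((g1 * (t ^ n * w))⁻¹ * (g1 * t ^ n)) ≤ cW := by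
      have e : (g1 * (t ^ n * w))⁻¹ * (g1 * t ^ n) = w⁻¹ := by group
      rw [e, C.hG.inv]
      exact hcW w hw
    omega
  refine ⟨fun i => max (max (M (c2 + (C.K * i + C.K) + c2)) (C.K * (c2 + i * C.lG t + c2) + C.K))
    (M (C.K + c2)), ?_⟩
  intro g1
  let q : H → ℤ := fun y => if h : ∃ n : ℤ, C.lG ((C.f y)⁻¹ * (g1 * t ^ n)) ≤ c2 then
    Classical.choose h else 0
  have hq : ∀ y ∈ C.N r (C.Y (g1 • k)), C.lG ((C.f y)⁻¹ * (g1 * t ^ (q y))) ≤ c2 := by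
    intro y hy
    have h := near g1 y hy
    simp only [q, dif_pos h]
    exact Classical.choose_spec h
  have hd : ∀ n n' : ℤ, (g1 * t ^ n)⁻¹ * (g1 * t ^ n') = t ^ (n' - n) := by
    intro n n'
    group
  refine ⟨q, ?_, ?_⟩
  · intro y hy y' hy'
    have b1 := hq y hy
    have b2 := hq y' hy'
    constructor
    · refine le_trans ?_ ((le_max_left _ _).trans (le_max_left _ _))
      have : (q y - q y').natAbs = (q y' - q y).natAbs := by omega
      rw [this]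
      apply hM
      rw [← hd]
      have a1 := C.hG.tri (g1 * t ^ (q y)) (C.f y) (g1 * t ^ (q y'))
      have a2 := C.hG.tri (C.f y) (C.f y') (g1 * t ^ (q y'))
      have a3 := C.hf1 y y'
      have a4 := C.hG.comm (g1 * t ^ (q y)) (C.f y)
      omega
    · refine le_trans ?_ ((le_max_right _ _).trans (le_max_left _ _))
      refine (C.hf2 y y').trans ?_
      have a1 := C.hG.tri (C.f y) (g1 * t ^ (q y)) (C.f y')
      have a2 := C.hG.tri (g1 * t ^ (q y)) (g1 * t ^ (q y')) (C.f y')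
      have a4 := C.hG.comm (g1 * t ^ (q y')) (C.f y')
      rw [hd] at a2
      have a5 := len_zpow C.hG t (q y' - q y)
      have e : (q y - q y').natAbs = (q y' - q y).natAbs := by omega
      rw [e]
      have : C.lG ((C.f y)⁻¹ * C.f y') ≤ c2 + (q y' - q y).natAbs * C.lG t + c2 := by omega
      have := Nat.mul_le_mul_left C.K this
      omega
  · intro n
    have hmem : C.sg (g1 * t ^ n) ∈ C.Y (g1 • k) := by
      apply C.sg_mem
      have e : (g1 * t ^ n)⁻¹ • g1 • k = k := by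
        rw [mul_inv_rev, mul_smul, inv_smul_smul, ← zpow_neg]
        have : ∀ m : ℤ, t ^ m • k = k := by
          intro m
          have h1 : t ∈ MulAction.stabilizer G k := ht1
          exact (MulAction.stabilizer G k).zpow_mem h1 m
        exact this _
      rw [e]
      exact hk
    refine ⟨_, hmem, ?_⟩
    refine le_trans ?_ (le_max_right _ _)
    have b1 := hq _ (C.N_self hmem)
    have b2 := C.hsg (g1 * t ^ n)
    apply hM
    have e : t ^ (q (C.sg (g1 * t ^ n)) - n) =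
        (g1 * t ^ n)⁻¹ * (g1 * t ^ q (C.sg (g1 * t ^ n))) := by rw [hd]
    rw [e]
    have a1 := C.hG.tri (g1 * t ^ n) (C.f (C.sg (g1 * t ^ n))) (g1 * t ^ q (C.sg (g1 * t ^ n)))
    omega

/-- **coordinates on all lines, with uniform control** -/
theorem coord (r : ℕ) : ∃ ρ : ℕ → ℕ, Monotone ρ ∧ ∀ l : V, l ∉ C.B →
    ∃ q : H → ℤ, (∀ y ∈ C.N r (C.Y l), ∀ y' ∈ C.N r (C.Y l),
      (q y - q y').natAbs ≤ ρ (C.lH (y⁻¹ * y')) ∧ C.lH (y⁻¹ * y') ≤ ρ (q y - q y').natAbs) ∧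
      ∀ n : ℤ, ∃ y ∈ C.Y l, (q y - n).natAbs ≤ ρ 0 := by
  classical
  obtain ⟨ρ, hρ⟩ := finset_unif (α := ℕ → ℕ) C.K0 (fun k ρ => k ∉ C.B → ∀ g1 : G,
    ∃ q : H → ℤ, (∀ y ∈ C.N r (C.Y (g1 • k)), ∀ y' ∈ C.N r (C.Y (g1 • k)),
      (q y - q y').natAbs ≤ ρ (C.lH (y⁻¹ * y')) ∧ C.lH (y⁻¹ * y') ≤ ρ (q y - q y').natAbs) ∧
      ∀ n : ℤ, ∃ y ∈ C.Y (g1 • k), (q y - n).natAbs ≤ ρ 0)
    (by
      intro k ρ ρ' hle h hk g1
      obtain ⟨q, h1, h2⟩ := h hk g1
      refine ⟨q, ?_, ?_⟩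
      · intro y hy y' hy'
        obtain ⟨a1, a2⟩ := h1 y hy y' hy'
        exact ⟨a1.trans (hle _), a2.trans (hle _)⟩
      · intro n
        obtain ⟨y, hy, hy'⟩ := h2 n
        exact ⟨y, hy, hy'.trans (hle _)⟩)
    (by
      intro k hk
      by_cases hkB : k ∈ C.B
      · exact ⟨fun _ => 0, fun h => absurd hkB h⟩
      · obtain ⟨ρ, h⟩ := C.coord_one r k hk hkB
        exact ⟨ρ, fun _ => h⟩)
  have hle : ∀ n, ρ n ≤ ∑ i ∈ Finset.range (n + 1), ρ i := by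
    intro n
    exact Finset.single_le_sum (f := ρ) (fun _ _ => Nat.zero_le _) (Finset.mem_range.2 (by omega))
  refine ⟨fun n => ∑ i ∈ Finset.range (n + 1), ρ i, ?_, ?_⟩
  · intro a b hab
    exact Finset.sum_le_sum_of_subset (Finset.range_mono (by omega))
  · intro l hl
    obtain ⟨g1, k, hk, rfl⟩ := C.hK0 l
    have hkB : k ∉ C.B := fun h => hl (C.R.smul_mem _ _ h)
    obtain ⟨q, h1, h2⟩ := hρ k hk hkB g1
    refine ⟨q, ?_, ?_⟩
    · intro y hy y' hy'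
      obtain ⟨a1, a2⟩ := h1 y hy y' hy'
      exact ⟨a1.trans (hle _), a2.trans (hle _)⟩
    · intro n
      obtain ⟨y, hy, hy'⟩ := h2 n
      exact ⟨y, hy, hy'.trans (hle _)⟩

end Ctx

end Pool.Agent.Helper99
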